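import Pool.Agent.Lib_MP_1c78a5_mp.Smooth

/-!
The cubic phases: sums `∑ W(x) z^x e((x^3 - (x+s)^3)/p)` over an integer interval.
-/

set_option autoImplicit false

namespace Pool.Agent.WHApprox

open Finset

/-- `x ↦ e((x^3 - (x+s)^3)/p)` has perfect autocorrelation -/
lemma cubic_perfect {p : ℕ} [Fact p.Prime] (hp : 3 < p) (s : ZMod p) (hs : s ≠ 0) (v : ZMod p)
    (hv : v ≠ 0) :
    ∑ y : ZMod p, ZMod.stdAddChar ((y + v) ^ 3 - (y + v + s) ^ 3) *
      (starRingEnd ℂ) (ZMod.stdAddChar (y ^ 3 - (y + s) ^ 3) : ℂ) = 0 := by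
  have h6 : (6 : ZMod p) ≠ 0 := by
    intro h
    have h1 : ((6 : ℕ) : ZMod p) = 0 := by exact_mod_cast h
    rw [ZMod.natCast_eq_zero_iff] at h1
    have h2 : p ∣ 2 * 3 := by norm_num; exact h1
    rcases (Fact.out : p.Prime).dvd_mul.1 h2 with h3 | h3
    · have := Nat.le_of_dvd (by norm_num) h3
      omega
    · have := Nat.le_of_dvd (by norm_num) h3
      omega
  have h : ∀ y : ZMod p, (ZMod.stdAddChar ((y + v) ^ 3 - (y + v + s) ^ 3) : ℂ) *
      (starRingEnd ℂ) (ZMod.stdAddChar (y ^ 3 - (y + s) ^ 3) : ℂ)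
      = ZMod.stdAddChar (-(3 * s * v ^ 2 + 3 * s ^ 2 * v)) * ZMod.stdAddChar (y * (-6 * s * v)) := by
    intro y
    rw [← AddChar.map_neg_eq_conj, ← AddChar.map_add_eq_mul, ← AddChar.map_add_eq_mul]
    congr 1
    ring
  rw [sum_congr rfl fun y _ => h y, ← mul_sum,
    AddChar.sum_mulShift _ (ZMod.isPrimitive_stdAddChar p), if_neg]
  · simp
  · exact mul_ne_zero (mul_ne_zero (neg_ne_zero.2 h6) hs) hv

lemma sum_Ico_zmod {E : Type*} [AddCommMonoid E] (p : ℕ) [NeZero p] (F : ℤ → E) :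
    ∑ x ∈ Ico (0 : ℤ) p, F x = ∑ x : ZMod p, F (x.val : ℤ) := by
  symm
  refine sum_bij (fun x _ => (x.val : ℤ)) ?_ ?_ ?_ ?_
  · intro x _
    rw [mem_Ico]
    exact ⟨by positivity, by exact_mod_cast ZMod.val_lt x⟩
  · intro x _ y _ h
    have : x.val = y.val := by exact_mod_cast h
    exact ZMod.val_injective p this
  · intro x hx
    rw [mem_Ico] at hx
    refine ⟨((x.toNat : ℕ) : ZMod p), mem_univ _, ?_⟩
    rw [ZMod.val_cast_of_lt (by omega)]
    omega
  · intro x _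
    rfl

/-- The smoothed cubic difference sum over an interval. -/
lemma cubic_bound {p : ℕ} [Fact p.Prime] (hp : 3 < p) (s : ℤ) (hs : (s : ZMod p) ≠ 0)
    (W : ℤ → ℝ) (hW0 : W 0 = 0) (hWp : W p = 0) (z : ℂ) (hz : ‖z‖ = 1) (r : ℝ) (hr0 : 0 ≤ r)
    (hr1 : r < 1) :
    ‖∑ x ∈ Ico (0 : ℤ) p, (W x : ℂ) * z ^ x *
        (ZMod.stdAddChar ((x : ZMod p) ^ 3 - ((x : ZMod p) + (s : ZMod p)) ^ 3) : ℂ)‖ ^ 2
      ≤ (p : ℝ) * (1 / ((1 - r ^ 2) * (1 - r ^ p) ^ 2)) *
        ∑ x ∈ Ico (0 : ℤ) p, (W (x + 1) - r * W x) ^ 2 := by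
  have hz0 : z ≠ 0 := by
    intro h
    rw [h, norm_zero] at hz
    exact zero_ne_one hz
  set g : ZMod p → ℂ := fun x => ZMod.stdAddChar (x ^ 3 - (x + (s : ZMod p)) ^ 3) with hg
  set f : ZMod p → ℂ := fun x => (W (x.val : ℤ) : ℂ) * z ^ ((x.val : ℕ) : ℤ) with hf
  have h1 : ∑ x ∈ Ico (0 : ℤ) p, (W x : ℂ) * z ^ x *
        (ZMod.stdAddChar ((x : ZMod p) ^ 3 - ((x : ZMod p) + (s : ZMod p)) ^ 3) : ℂ)
      = ∑ x : ZMod p, f x * g x := by
    rw [sum_Ico_zmod]
    refine sum_congr rfl fun x _ => ?_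
    have hx : ((x.val : ℤ) : ZMod p) = x := by
      rw [Int.cast_natCast, ZMod.natCast_zmod_val]
    simp only [hf, hg, hx]
  have hc : ‖(r : ℂ) * z‖ = r := by
    rw [norm_mul, hz, mul_one, Complex.norm_real, Real.norm_of_nonneg hr0]
  have h2 : ∑ x : ZMod p, ‖f (x + 1) - ((r : ℂ) * z) * f x‖ ^ 2
      = ∑ x ∈ Ico (0 : ℤ) p, (W (x + 1) - r * W x) ^ 2 := by
    rw [sum_Ico_zmod]
    refine sum_congr rfl fun x _ => ?_
    have hval : f (x + 1) = (W ((x.val : ℤ) + 1) : ℂ) * z ^ ((x.val : ℤ) + 1) := by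
      have hlt := ZMod.val_lt x
      rcases Nat.lt_or_ge (x.val + 1) p with h | h
      · have : (x + 1).val = x.val + 1 := by
          rw [ZMod.val_add_of_lt]
          · rw [ZMod.val_one'' (by omega)]
          · rw [ZMod.val_one'' (by omega)]
            exact h
        simp only [hf, this]
        push_cast
        rfl
      · have hx : x.val = p - 1 := by omega
        have h0 : x + 1 = 0 := by
          have : ((x.val + 1 : ℕ) : ZMod p) = ((p : ℕ) : ZMod p) := by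
            congr 1
            omega
          rw [Nat.cast_add, Nat.cast_one, ZMod.natCast_zmod_val, CharP.cast_eq_zero] at this
          exact this
        have hp1 : ((x.val : ℤ) + 1) = p := by omega
        rw [h0, hp1, hWp]
        simp only [hf, ZMod.val_zero, Nat.cast_zero, hW0]
        simp
    rw [hval, zpow_add_one₀ hz0]
    have : (W ((x.val : ℤ) + 1) : ℂ) * (z ^ (x.val : ℤ) * z) - ((r : ℂ) * z) * f x
        = ((W ((x.val : ℤ) + 1) - r * W (x.val : ℤ) : ℝ) : ℂ) * (z ^ (x.val : ℤ) * z) := by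
      simp only [hf]
      push_cast
      ring
    rw [this, norm_mul, norm_mul, norm_zpow, hz, one_zpow, mul_one, mul_one, Complex.norm_real,
      Real.norm_eq_abs, sq_abs]
  rw [h1, ← h2]
  have := perfect_sum_bound g (fun x => AddChar.norm_apply _ _)
    (fun v hv => cubic_perfect hp (s : ZMod p) hs v hv) f ((r : ℂ) * z) (by rw [hc]; exact hr1)
  rw [hc] at this
  exact this

end Pool.Agent.WHApprox
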