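import Pool.Agent.Lib_MP_1c78a5_mp.Flat

/-!
Flat vectors in dimension `q - 1` from an additive character of `𝔽_q` evaluated at the powers of a
generator of the multiplicative group.
-/

set_option autoImplicit false

namespace Pool.Agent.WHApprox

open Finset

/-- the powers of a generator of the multiplicative group -/
def pw {d : ℕ} {F : Type} [Field F] (e : Multiplicative (ZMod d) ≃* Fˣ) (j : ZMod d) : F :=
  ((e (Multiplicative.ofAdd j) : Fˣ) : F)

section

variable {d : ℕ} [NeZero d] {F : Type} [Field F] [Fintype F] [DecidableEq F]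
  (e : Multiplicative (ZMod d) ≃* Fˣ)

omit [NeZero d] [Fintype F] [DecidableEq F] in
lemma pw_add (j k : ZMod d) : pw e (j + k) = pw e j * pw e k := by
  unfold pw
  rw [ofAdd_add, map_mul, Units.val_mul]

omit [NeZero d] [Fintype F] [DecidableEq F] in
lemma pw_ne_zero (j : ZMod d) : pw e j ≠ 0 := Units.ne_zero _

omit [NeZero d] [Fintype F] [DecidableEq F] in
lemma pw_inj {j k : ZMod d} (h : pw e j = pw e k) : j = k := by
  unfold pw at h
  have h1 := Units.ext h
  have h2 := e.injective h1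
  exact Multiplicative.ofAdd.injective h2

omit [NeZero d] [Fintype F] [DecidableEq F] in
lemma pw_zero : pw e 0 = 1 := by
  unfold pw
  rw [ofAdd_zero, map_one, Units.val_one]

omit [NeZero d] [Fintype F] [DecidableEq F] in
lemma pw_ne_one {v : ZMod d} (hv : v ≠ 0) : pw e v ≠ 1 := by
  intro h
  rw [← pw_zero e] at h
  exact hv (pw_inj e h)

lemma sum_char {χ : AddChar F ℂ} (hχ : χ.IsPrimitive) {c : F} (hc : c ≠ 0) :
    ∑ k : ZMod d, χ (c * pw e k) = -1 := by
  have h1 : ∑ k : ZMod d, χ (c * pw e k) = ∑ x ∈ univ.erase (0 : F), χ (x * c) := by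
    refine sum_bij (fun k _ => pw e k) ?_ ?_ ?_ ?_
    · intro k _
      exact mem_erase.2 ⟨pw_ne_zero e k, mem_univ _⟩
    · intro k _ l _ h
      exact pw_inj e h
    · intro x hx
      have hx0 : x ≠ 0 := (mem_erase.1 hx).1
      refine ⟨Multiplicative.toAdd (e.symm (Units.mk0 x hx0)), mem_univ _, ?_⟩
      unfold pw
      simp
    · intro k _
      rw [mul_comm]
  rw [h1, sum_erase_eq_sub (mem_univ _), AddChar.sum_mulShift c hχ, if_neg hc, zero_mul,
    AddChar.map_zero_eq_one]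
  simp

lemma fourier_char {χ : AddChar F ℂ} (hχ : χ.IsPrimitive) {c : F} (hc : c ≠ 0) {z : ℂ}
    (hz : z ^ d = 1) (hz1 : z ≠ 1) :
    ‖∑ j : ZMod d, χ (c * pw e j) * z ^ ((j.val : ℕ) : ℤ)‖ ^ 2 = (d : ℝ) + 1 := by
  have h1 := norm_fourier_sq (fun j : ZMod d => χ (c * pw e j)) hz
  have h2 : ∀ v : ZMod d, ∑ k : ZMod d, χ (c * pw e (k + v)) * (starRingEnd ℂ) (χ (c * pw e k))
      = (if v = 0 then ((d : ℂ) + 1) else 0) - 1 := by
    intro v
    have h3 : ∀ k : ZMod d, χ (c * pw e (k + v)) * (starRingEnd ℂ) (χ (c * pw e k))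
        = χ ((c * (pw e v - 1)) * pw e k) := by
      intro k
      rw [← AddChar.map_neg_eq_conj, ← AddChar.map_add_eq_mul, pw_add]
      congr 1
      ring
    rw [sum_congr rfl fun k _ => h3 k]
    by_cases hv : v = 0
    · rw [if_pos hv, hv, pw_zero, sub_self, mul_zero]
      simp [ZMod.card]
    · rw [if_neg hv, sum_char e hχ (mul_ne_zero hc (sub_ne_zero.2 (pw_ne_one e hv)))]
      ring
  have h4 : ∑ v : ZMod d, z ^ ((v.val : ℕ) : ℤ) * ∑ k : ZMod d, χ (c * pw e (k + v)) *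
      (starRingEnd ℂ) (χ (c * pw e k)) = (d : ℂ) + 1 := by
    rw [sum_congr rfl fun v _ => by rw [h2 v]]
    simp only [mul_sub, mul_one, sum_sub_distrib]
    rw [sum_root hz hz1, sub_zero, sum_eq_single 0]
    · simp
    · intro v _ hv
      rw [if_neg hv, mul_zero]
    · intro h
      exact absurd (mem_univ _) h
  rw [h4] at h1
  exact_mod_cast h1

end

theorem ff_case_aux (d : ℕ) [NeZero d] (hd : 17 ≤ d) (ε : ℝ) (hε0 : 0 < ε) (hε4 : ε ^ 4 = 1 / d)
    {F : Type} [Field F] [Fintype F] [DecidableEq F] (e : Multiplicative (ZMod d) ≃* Fˣ)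
    {χ : AddChar F ℂ} (hχ : χ.IsPrimitive) :
    ∃ ψ : ZMod d → ℂ, ∑ j, ‖ψ j‖ ^ 2 = 1 ∧ ∀ (a : ZMod d) (z : ℂ), z ^ d = 1 → (a ≠ 0 ∨ z ≠ 1) →
      |((d : ℝ) + 1) * ‖ovl ψ a z‖ ^ 2 - 1| ≤ 32 * ε := by
  obtain ⟨hs1, hs2, hε5, hεd⟩ := sqrt_eps hd hε0 hε4
  have hd0 : (0 : ℝ) < d := by
    have : (17 : ℝ) ≤ d := by exact_mod_cast hd
    linarith
  have e2 : ε ^ 2 ≤ 0.4925 * ε := by nlinarith
  have e3 : ε ^ 3 ≤ 0.4925 * ε ^ 2 := by nlinarith [sq_nonneg ε]
  have e4 : ε ^ 4 ≤ 0.4925 * ε ^ 3 := by nlinarith [pow_pos hε0 3]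
  have he4 : ε ^ 4 ≤ 0.12 * ε := by nlinarith
  have he4' : ε ^ 4 ≤ 0.06 := by nlinarith
  have hs0 : 0 ≤ Real.sqrt ((d : ℝ) + 1) := Real.sqrt_nonneg _
  have hsS : Real.sqrt ((d : ℝ) + 1) ^ 2 = d + 1 := Real.sq_sqrt (by positivity)
  set f : ZMod d → ℂ := fun j => ((ε ^ 2 : ℝ) : ℂ) * χ (pw e j) with hf
  -- the norm of the Fourier coefficients of the character sequence
  have hFn : ∀ (c : F), c ≠ 0 → ∀ z : ℂ, z ^ d = 1 → z ≠ 1 →
      ‖∑ j : ZMod d, χ (c * pw e j) * z ^ ((j.val : ℕ) : ℤ)‖ = Real.sqrt ((d : ℝ) + 1) := by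
    intro c hc z hz hz1
    have h1 := fourier_char e hχ hc hz hz1
    rw [← h1, Real.sqrt_sq (norm_nonneg _)]
  have hFf : ∀ z : ℂ, ∑ j : ZMod d, f j * z ^ ((j.val : ℕ) : ℤ)
      = ((ε ^ 2 : ℝ) : ℂ) * ∑ j : ZMod d, χ (1 * pw e j) * z ^ ((j.val : ℕ) : ℤ) := by
    intro z
    rw [mul_sum]
    refine sum_congr rfl fun j _ => ?_
    simp only [hf]
    rw [one_mul]
    ring
  have hF0' : ‖∑ j : ZMod d, f j‖ = ε ^ 2 := by
    have h1 : ∑ j : ZMod d, f j = ((ε ^ 2 : ℝ) : ℂ) * ∑ j : ZMod d, χ (1 * pw e j) := by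
      rw [mul_sum]
      refine sum_congr rfl fun j _ => ?_
      simp only [hf]
      rw [one_mul]
    rw [h1, sum_char e hχ one_ne_zero, norm_mul, norm_neg, norm_one, mul_one, Complex.norm_real,
      Real.norm_of_nonneg (by positivity)]
  have hγ0 : 0 ≤ ε ^ 3 := by positivity
  refine pert_final d hd ε hε0 hε4 f (ε ^ 3) (Or.inr rfl) ?_ ?_ ?_ ?_
  · intro j
    simp only [hf]
    rw [norm_mul, Complex.norm_real, Real.norm_of_nonneg (by positivity), AddChar.norm_apply, mul_one]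
  · intro z hz
    apply mul_le_mul_of_nonneg_left _ hγ0
    by_cases hz1 : z = 1
    · subst hz1
      simp only [one_zpow, mul_one]
      rw [hF0']
      nlinarith
    · rw [hFf z, norm_mul, hFn 1 one_ne_zero z hz hz1, Complex.norm_real,
        Real.norm_of_nonneg (by positivity)]
      linarith
  · rw [hF0']
  · intro a z hz haz
    have hovl : ovl f a z = ((ε ^ 4 : ℝ) : ℂ) * ∑ j : ZMod d, χ ((1 - pw e a) * pw e j) *
        z ^ ((j.val : ℕ) : ℤ) := by
      unfold ovl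
      rw [mul_sum]
      refine sum_congr rfl fun j _ => ?_
      simp only [hf]
      have h1 : χ ((1 - pw e a) * pw e j) = (starRingEnd ℂ) (χ (pw e (j + a))) * χ (pw e j) := by
        rw [← AddChar.map_neg_eq_conj, ← AddChar.map_add_eq_mul, pw_add]
        congr 1
        ring
      rw [h1, map_mul, Complex.conj_ofReal]
      push_cast
      ring
    by_cases ha : a = 0
    · have hz1 : z ≠ 1 := by
        rcases haz with h | h
        · exact absurd ha h
        · exact h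
      have h0 : ovl f a z = 0 := by
        rw [hovl, ha, pw_zero, sub_self]
        simp only [zero_mul, AddChar.map_zero_eq_one, one_mul]
        rw [sum_root hz hz1, mul_zero]
      rw [h0, if_pos ha, sum_root hz hz1, mul_zero, add_zero, zero_add, norm_pow, Complex.norm_real,
        Real.norm_of_nonneg hε0.le, abs_le]
      constructor <;> linarith
    · have hc : 1 - pw e a ≠ 0 := sub_ne_zero.2 (pw_ne_one e ha).symm
      rw [if_neg ha, add_zero]
      by_cases hz1 : z = 1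
      · subst hz1
        have h0 : ovl f a 1 + (((ε ^ 3 : ℝ) : ℝ) : ℂ) ^ 2 * ∑ j : ZMod d, (1 : ℂ) ^ ((j.val : ℕ) : ℤ)
            = ((ε ^ 2 - ε ^ 4 : ℝ) : ℂ) := by
          rw [hovl]
          simp only [one_zpow, mul_one]
          rw [sum_char e hχ hc, sum_const, card_univ, ZMod.card, nsmul_eq_mul, mul_one]
          have h5 : (ε ^ 3) ^ 2 * (d : ℝ) = ε ^ 2 := by
            have : (ε ^ 3) ^ 2 * (d : ℝ) = ε ^ 2 * (ε ^ 4 * d) := by ring
            rw [this, hε4]
            field_simp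
          have h6 : (((ε ^ 3 : ℝ) : ℝ) : ℂ) ^ 2 * (d : ℂ) = ((ε ^ 2 : ℝ) : ℂ) := by
            rw [← h5]
            push_cast
            ring
          rw [h6]
          push_cast
          ring
        rw [h0, Complex.norm_real, Real.norm_of_nonneg (by nlinarith)]
        have h7 : Real.sqrt ((d : ℝ) + 1) * (ε ^ 2 - ε ^ 4)
            = (Real.sqrt ((d : ℝ) + 1) * ε ^ 2) * (1 - ε ^ 2) := by ring
        rw [h7]
        have h8 : 0 ≤ 1 - ε ^ 2 := by nlinarith
        have h9 := mul_le_mul_of_nonneg_right hs1 h8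
        have h10 := mul_le_mul_of_nonneg_right hs2 h8
        have hp2 : 0 ≤ ε ^ 2 := by positivity
        have hp6 : 0 ≤ ε ^ 4 * ε ^ 2 := by positivity
        rw [abs_le]
        constructor
        · nlinarith
        · nlinarith
      · rw [sum_root hz hz1, mul_zero, add_zero, hovl, norm_mul, hFn _ hc z hz hz1,
          Complex.norm_real, Real.norm_of_nonneg (by positivity)]
        have h11 : Real.sqrt ((d : ℝ) + 1) * (ε ^ 4 * Real.sqrt ((d : ℝ) + 1)) = 1 + ε ^ 4 := by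
          have : Real.sqrt ((d : ℝ) + 1) * (ε ^ 4 * Real.sqrt ((d : ℝ) + 1))
              = ε ^ 4 * Real.sqrt ((d : ℝ) + 1) ^ 2 := by ring
          rw [this, hsS, hεd]
        rw [h11, abs_le]
        constructor
        · nlinarith [pow_pos hε0 4]
        · linarith

lemma exists_ff (p n : ℕ) [Fact p.Prime] (hn : n ≠ 0) (d : ℕ) (hd : d + 1 = p ^ n) :
    ∃ (F : Type) (_ : Field F) (_ : Fintype F) (_ : DecidableEq F)
      (_ : Multiplicative (ZMod d) ≃* Fˣ) (χ : AddChar F ℂ), χ.IsPrimitive := by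
  classical
  letI : Fintype (GaloisField p n) := Fintype.ofFinite _
  have hcard : Nat.card (GaloisField p n)ˣ = d := by
    rw [Nat.card_units, GaloisField.card p n hn, ← hd]
    rfl
  obtain ⟨g, hg⟩ := IsCyclic.exists_generator (α := (GaloisField p n)ˣ)
  exact ⟨GaloisField p n, inferInstance, inferInstance, inferInstance,
    zmodMulEquivOfGenerator hg hcard, AddChar.FiniteField.primitiveChar_to_Complex (GaloisField p n),
    AddChar.FiniteField.primitiveChar_to_Complex_isPrimitive (GaloisField p n)⟩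

/-- the case of `d + 1` a prime power -/
theorem ff_case (p n : ℕ) [Fact p.Prime] (hn : n ≠ 0) (d : ℕ) [NeZero d] (hdq : d + 1 = p ^ n)
    (hd : 17 ≤ d) (ε : ℝ) (hε0 : 0 < ε) (hε4 : ε ^ 4 = 1 / d) :
    ∃ ψ : ZMod d → ℂ, ∑ j, ‖ψ j‖ ^ 2 = 1 ∧ ∀ (a : ZMod d) (z : ℂ), z ^ d = 1 → (a ≠ 0 ∨ z ≠ 1) →
      |((d : ℝ) + 1) * ‖ovl ψ a z‖ ^ 2 - 1| ≤ 32 * ε := by
  obtain ⟨F, _, _, _, e, χ, hχ⟩ := exists_ff p n hn d hdq
  exact ff_case_aux d hd ε hε0 hε4 e hχ

end Pool.Agent.WHApprox
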