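import Pool.Agent.Lib_MP_1c78a5_mp.PertFinal

/-!
Flat vectors in dimension `p` (cubic phases) and `q - 1` (additive character of the powers of a
generator of a finite field).
-/

set_option autoImplicit false

namespace Pool.Agent.WHApprox

open Finset

/-- `‖∑ g z^j‖²` in terms of the autocorrelation of `g` -/
lemma norm_fourier_sq {d : ℕ} [NeZero d] (g : ZMod d → ℂ) {z : ℂ} (hz : z ^ d = 1) :
    ((‖∑ j : ZMod d, g j * z ^ ((j.val : ℕ) : ℤ)‖ ^ 2 : ℝ) : ℂ)
      = ∑ v : ZMod d, z ^ ((v.val : ℕ) : ℤ) * ∑ k : ZMod d, g (k + v) * (starRingEnd ℂ) (g k) := by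
  have hz1 := norm_root hz
  have hz0 : z ≠ 0 := by
    intro h
    rw [h, norm_zero] at hz1
    exact zero_ne_one hz1
  have hcz : (starRingEnd ℂ) z = z⁻¹ := by
    rw [Complex.inv_def, Complex.normSq_eq_norm_sq, hz1]
    norm_num
  rw [← Complex.normSq_eq_norm_sq, ← Complex.mul_conj, map_sum, sum_mul_sum]
  simp only [mul_sum]
  rw [sum_comm]
  conv_rhs => rw [sum_comm]
  refine sum_congr rfl fun k _ => ?_
  rw [← Equiv.sum_comp (Equiv.addRight k) (fun j => g j * z ^ ((j.val : ℕ) : ℤ) *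
    (starRingEnd ℂ) (g k * z ^ ((k.val : ℕ) : ℤ)))]
  refine sum_congr rfl fun v _ => ?_
  simp only [Equiv.coe_addRight]
  have h2 : z ^ (((v + k).val : ℕ) : ℤ) = z ^ (((v.val : ℕ) : ℤ) + ((k.val : ℕ) : ℤ)) := by
    apply zpow_class hz
    push_cast
    rw [ZMod.natCast_zmod_val, ZMod.natCast_zmod_val]
  rw [h2, zpow_add₀ hz0, map_mul, map_zpow₀, hcz, inv_zpow, add_comm v k]
  have h3 : z ^ ((k.val : ℕ) : ℤ) ≠ 0 := zpow_ne_zero _ hz0
  field_simp

lemma sum_root_eq {d : ℕ} [NeZero d] {z : ℂ} (hz : z ^ d = 1) :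
    ∑ j : ZMod d, z ^ ((j.val : ℕ) : ℤ) = if z = 1 then (d : ℂ) else 0 := by
  split_ifs with h
  · subst h
    simp [ZMod.card]
  · exact sum_root hz h

lemma sqrt_eps {d : ℕ} (hd : 17 ≤ d) {ε : ℝ} (hε0 : 0 < ε) (hε4 : ε ^ 4 = 1 / d) :
    1 ≤ Real.sqrt ((d : ℝ) + 1) * ε ^ 2 ∧ Real.sqrt ((d : ℝ) + 1) * ε ^ 2 ≤ 1 + ε ^ 4 / 2 ∧
      ε ≤ 0.4925 ∧ ε ^ 4 * ((d : ℝ) + 1) = 1 + ε ^ 4 := by
  have hd17 : (17 : ℝ) ≤ d := by exact_mod_cast hd
  have hd0 : (0 : ℝ) < d := by linarith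
  have hε5 : ε ≤ 0.4925 := by
    by_contra h
    push Not at h
    have h1 : (0.4925 : ℝ) ^ 4 < ε ^ 4 := pow_lt_pow_left₀ h (by norm_num) (by norm_num)
    have h2 : (1 : ℝ) / d ≤ 1 / 17 := one_div_le_one_div_of_le (by norm_num) hd17
    rw [hε4] at h1
    norm_num at h1 h2
    linarith
  have hs2 : Real.sqrt ((d : ℝ) + 1) ^ 2 = d + 1 := Real.sq_sqrt (by positivity)
  have hsq : (Real.sqrt ((d : ℝ) + 1) * ε ^ 2) ^ 2 = 1 + ε ^ 4 := by
    have : (Real.sqrt ((d : ℝ) + 1) * ε ^ 2) ^ 2 = (d + 1) * ε ^ 4 := by rw [mul_pow, hs2]; ring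
    rw [this, add_mul, one_mul, hε4]
    field_simp
  have h0 : 0 ≤ Real.sqrt ((d : ℝ) + 1) * ε ^ 2 := by positivity
  refine ⟨?_, ?_, hε5, ?_⟩
  · have : (1 : ℝ) ^ 2 ≤ (Real.sqrt ((d : ℝ) + 1) * ε ^ 2) ^ 2 := by
      rw [hsq]
      have := pow_pos hε0 4
      linarith
    exact le_of_sq_le_sq this h0
  · have : (Real.sqrt ((d : ℝ) + 1) * ε ^ 2) ^ 2 ≤ (1 + ε ^ 4 / 2) ^ 2 := by
      rw [hsq]
      nlinarith [sq_nonneg (ε ^ 4)]
    exact le_of_sq_le_sq this (by positivity)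
  · rw [mul_add, mul_one, hε4]
    field_simp

/-- the prime case -/
theorem prime_case (d : ℕ) [Fact d.Prime] (hd : 17 ≤ d) (ε : ℝ) (hε0 : 0 < ε)
    (hε4 : ε ^ 4 = 1 / d) :
    ∃ ψ : ZMod d → ℂ, ∑ j, ‖ψ j‖ ^ 2 = 1 ∧ ∀ (a : ZMod d) (z : ℂ), z ^ d = 1 → (a ≠ 0 ∨ z ≠ 1) →
      |((d : ℝ) + 1) * ‖ovl ψ a z‖ ^ 2 - 1| ≤ 32 * ε := by
  obtain ⟨hs1, hs2, hε5, -⟩ := sqrt_eps hd hε0 hε4
  have hd0 : (0 : ℝ) < d := by
    have : (17 : ℝ) ≤ d := by exact_mod_cast hd
    linarith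
  have he4 : ε ^ 4 ≤ 0.12 * ε := by
    have e2 : ε ^ 2 ≤ 0.4925 * ε := by nlinarith
    have e3 : ε ^ 3 ≤ 0.4925 * ε ^ 2 := by nlinarith [sq_nonneg ε]
    have e4 : ε ^ 4 ≤ 0.4925 * ε ^ 3 := by nlinarith [pow_pos hε0 3]
    nlinarith
  have hfin : |Real.sqrt ((d : ℝ) + 1) * ε ^ 2 - 1| ≤ 0.7 * ε := by
    rw [abs_le]
    constructor <;> linarith
  set f : ZMod d → ℂ := fun j => ((ε ^ 2 : ℝ) : ℂ) * ZMod.stdAddChar (j ^ 3) with hf
  refine pert_final d hd ε hε0 hε4 f 0 (Or.inl rfl) ?_ ?_ ?_ ?_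
  · intro j
    simp only [hf]
    rw [norm_mul, Complex.norm_real, Real.norm_of_nonneg (by positivity), AddChar.norm_apply, mul_one]
  · intro z _
    simp
  · simp
  · intro a z hz haz
    rw [Complex.ofReal_zero, zero_pow (by norm_num), zero_mul, add_zero]
    by_cases ha : a = 0
    · rw [if_pos ha]
      have hz1 : z ≠ 1 := by
        rcases haz with h | h
        · exact absurd ha h
        · exact h
      have h0 : ovl f a z = 0 := by
        rw [ha]
        unfold ovl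
        have : ∀ j : ZMod d, (starRingEnd ℂ) (f (j + 0)) * f j * z ^ ((j.val : ℕ) : ℤ)
            = ((ε ^ 4 : ℝ) : ℂ) * z ^ ((j.val : ℕ) : ℤ) := by
          intro j
          rw [add_zero, mul_comm ((starRingEnd ℂ) _), Complex.mul_conj, Complex.normSq_eq_norm_sq]
          simp only [hf]
          rw [norm_mul, Complex.norm_real, Real.norm_of_nonneg (by positivity), AddChar.norm_apply,
            mul_one]
          congr 2
          ring
        rw [sum_congr rfl fun j _ => this j, ← mul_sum, sum_root hz hz1, mul_zero]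
      rw [h0, zero_add, norm_pow, Complex.norm_real, Real.norm_of_nonneg hε0.le]
      exact hfin
    · rw [if_neg ha, add_zero]
      have h0 : ovl f a z = ((ε ^ 4 : ℝ) : ℂ) * ∑ j : ZMod d,
          (ZMod.stdAddChar (j ^ 3 - (j + a) ^ 3) : ℂ) * z ^ ((j.val : ℕ) : ℤ) := by
        unfold ovl
        rw [mul_sum]
        refine sum_congr rfl fun j _ => ?_
        simp only [hf]
        rw [sub_eq_add_neg, AddChar.map_add_eq_mul, AddChar.map_neg_eq_conj, map_mul,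
          Complex.conj_ofReal]
        push_cast
        ring
      have h1 : ‖∑ j : ZMod d, (ZMod.stdAddChar (j ^ 3 - (j + a) ^ 3) : ℂ) * z ^ ((j.val : ℕ) : ℤ)‖ ^ 2
          = d := by
        have := norm_fourier_sq (fun j : ZMod d => (ZMod.stdAddChar (j ^ 3 - (j + a) ^ 3) : ℂ)) hz
        have hR : ∑ v : ZMod d, z ^ ((v.val : ℕ) : ℤ) * ∑ k : ZMod d,
            (ZMod.stdAddChar ((k + v) ^ 3 - (k + v + a) ^ 3) : ℂ) *
              (starRingEnd ℂ) (ZMod.stdAddChar (k ^ 3 - (k + a) ^ 3) : ℂ) = (d : ℂ) := by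
          rw [sum_eq_single 0]
          · have h2 : ∀ k : ZMod d, (ZMod.stdAddChar ((k + 0) ^ 3 - (k + 0 + a) ^ 3) : ℂ) *
                (starRingEnd ℂ) (ZMod.stdAddChar (k ^ 3 - (k + a) ^ 3) : ℂ) = 1 := by
              intro k
              rw [add_zero, Complex.mul_conj, Complex.normSq_eq_norm_sq, AddChar.norm_apply]
              norm_num
            rw [sum_congr rfl fun k _ => h2 k]
            simp [ZMod.card]
          · intro v _ hv
            rw [cubic_perfect (by omega) a ha v hv, mul_zero]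
          · intro h
            exact absurd (mem_univ _) h
        rw [hR] at this
        exact_mod_cast this
      have h3 : ‖ovl f a z‖ = ε ^ 2 := by
        have h4 : ‖ovl f a z‖ ^ 2 = (ε ^ 2) ^ 2 := by
          rw [h0, norm_mul, mul_pow, h1, Complex.norm_real, Real.norm_of_nonneg (by positivity)]
          have : (ε ^ 4) ^ 2 * (d : ℝ) = ε ^ 4 * (ε ^ 4 * d) := by ring
          rw [this]
          rw [show ε ^ 4 * (d : ℝ) = 1 by rw [hε4]; field_simp]
          ring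
        exact (pow_left_inj₀ (norm_nonneg _) (by positivity) (by norm_num)).1 h4
      rw [h3]
      exact hfin

end Pool.Agent.WHApprox
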