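import Pool.Agent.Lib_MP_1c78a5_mp.Cubic

/-!
Folding a window supported on `(0, M)` modulo `d`.
-/

set_option autoImplicit false

namespace Pool.Agent.WHApprox

open Finset

/-- the integers of `[0, p)` in the class `j` modulo `d` -/
noncomputable def cls (d p : ℕ) (j : ZMod d) : Finset ℤ := (Ico (0 : ℤ) p).filter (fun x : ℤ => (x : ZMod d) = j)

/-- the integers of `(-M, M)` in the class `a` modulo `d` -/
noncomputable def shf (d M : ℕ) (a : ZMod d) : Finset ℤ :=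
  (Ioo (-(M : ℤ)) M).filter (fun s : ℤ => (s : ZMod d) = a)

lemma mem_cls {d p : ℕ} {j : ZMod d} {x : ℤ} :
    x ∈ cls d p j ↔ (0 ≤ x ∧ x < p) ∧ (x : ZMod d) = j := by
  rw [cls, mem_filter, mem_Ico]

lemma mem_shf {d M : ℕ} {a : ZMod d} {s : ℤ} :
    s ∈ shf d M a ↔ (-(M : ℤ) < s ∧ s < M) ∧ (s : ZMod d) = a := by
  rw [shf, mem_filter, mem_Ioo]

/-- pairs `(x, y)` with `y ≡ x + a (mod d)` are grouped by the integer difference `s = y - x` -/
lemma pair_shift {E : Type*} [AddCommMonoid E] {d p M : ℕ} (hMp : M ≤ p) (G : ℤ → ℤ → E)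
    (hG : ∀ x y : ℤ, ¬ (0 ≤ x ∧ x < M ∧ 0 ≤ y ∧ y < M) → G x y = 0) (a : ZMod d) :
    ∑ x ∈ Ico (0 : ℤ) p, ∑ y ∈ cls d p ((x : ZMod d) + a),
        G x y
      = ∑ s ∈ shf d M a,
          ∑ x ∈ Ico (0 : ℤ) p, G x (x + s) := by
  rw [sum_comm]
  refine sum_congr rfl fun x hx => ?_
  rw [mem_Ico] at hx
  refine sum_bij_ne_zero (fun y _ _ => y - x) ?_ ?_ ?_ ?_
  · intro y hy hne
    rw [mem_cls] at hy
    have h : 0 ≤ x ∧ x < M ∧ 0 ≤ y ∧ y < M := by
      by_contra h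
      exact hne (hG x y h)
    rw [mem_shf]
    refine ⟨⟨by omega, by omega⟩, ?_⟩
    rw [Int.cast_sub, hy.2]
    ring
  · intro y₁ _ _ y₂ _ _ h
    simpa using h
  · intro s hs hne
    rw [mem_shf] at hs
    have h : 0 ≤ x ∧ x < M ∧ 0 ≤ x + s ∧ x + s < M := by
      by_contra h
      exact hne (hG x (x + s) h)
    refine ⟨x + s, ?_, hne, by simp⟩
    rw [mem_cls]
    refine ⟨⟨h.2.2.1, by omega⟩, ?_⟩
    rw [Int.cast_add, hs.2]
  · intro y _ _
    simp

/-- sums over pairs in terms of class sums -/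
lemma pair_class {d p : ℕ} [NeZero d] {R : Type*} [CommSemiring R] (α β : ℤ → R) (a : ZMod d) :
    ∑ x ∈ Ico (0 : ℤ) p, ∑ y ∈ cls d p ((x : ZMod d) + a),
        α x * β y
      = ∑ j : ZMod d, (∑ x ∈ cls d p j, α x) *
          (∑ y ∈ cls d p (j + a), β y) := by
  symm
  rw [← sum_fiberwise (Ico (0 : ℤ) p) (fun x : ℤ => (x : ZMod d))]
  refine sum_congr rfl fun j _ => ?_
  rw [sum_mul]
  refine sum_congr rfl fun x hx => ?_
  rw [mem_filter] at hx
  rw [mul_sum, hx.2]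

lemma sum_class {d p : ℕ} [NeZero d] {R : Type*} [AddCommMonoid R] (α : ℤ → R) :
    ∑ j : ZMod d, ∑ x ∈ cls d p j, α x
      = ∑ x ∈ Ico (0 : ℤ) p, α x :=
  sum_fiberwise (Ico (0 : ℤ) p) (fun x : ℤ => (x : ZMod d)) α

/-- A window: supported in `(0, M)`, with class sums of squares equal to one. -/
structure Window (d p M : ℕ) (u : ℤ → ℝ) : Prop where
  out : ∀ x : ℤ, (x ≤ 0 ∨ (M : ℤ) ≤ x) → u x = 0
  sq : ∀ j : ZMod d, ∑ x ∈ cls d p j, u x ^ 2 = 1

/-- shifting a sum over `Ico 0 p` by one, for functions vanishing at both ends -/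
lemma sum_shift_class {d p : ℕ} (β : ℤ → ℝ) (h0 : β 0 = 0) (hp : β p = 0) (j : ZMod d) :
    ∑ x ∈ cls d p j, β (x + 1)
      = ∑ y ∈ cls d p (j + 1), β y := by
  refine sum_bij_ne_zero (fun x _ _ => x + 1) ?_ ?_ ?_ ?_
  · intro x hx hne
    rw [mem_cls] at hx ⊢
    have : x + 1 ≠ p := fun h => hne (by rw [h, hp])
    refine ⟨⟨by omega, by omega⟩, ?_⟩
    rw [Int.cast_add, Int.cast_one, hx.2]
  · intro x _ _ y _ _ h
    simpa using h
  · intro y hy hne
    rw [mem_cls] at hy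
    have : y ≠ 0 := fun h => hne (by rw [h, h0])
    refine ⟨y - 1, ?_, by simpa using hne, by simp⟩
    rw [mem_cls]
    refine ⟨⟨by omega, by omega⟩, ?_⟩
    rw [Int.cast_sub, hy.2, Int.cast_one]
    ring
  · intro x _ _
    rfl

/-- the energy estimate: sum over all shifts of the smoothed energies -/
lemma energy {d p M : ℕ} [NeZero d] (hMp : M < p) {u : ℤ → ℝ} (hu : Window d p M u) (E : ℝ)
    (hE : ∑ x ∈ Ico (0 : ℤ) p, (u (x + 1) - u x) ^ 2 ≤ E) (r : ℝ) (hr0 : 0 ≤ r) (a : ZMod d) :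
    ∑ s ∈ shf d M a,
        ∑ x ∈ Ico (0 : ℤ) p, (u (x + 1) * u (x + s + 1) - r * (u x * u (x + s))) ^ 2
      ≤ d * (1 - r) ^ 2 + 2 * r * E := by
  have hG : ∀ x y : ℤ, ¬ (0 ≤ x ∧ x < M ∧ 0 ≤ y ∧ y < M) →
      (u (x + 1) * u (y + 1) - r * (u x * u y)) ^ 2 = 0 := by
    intro x y h
    have h1 : x < 0 ∨ (M : ℤ) ≤ x ∨ y < 0 ∨ (M : ℤ) ≤ y := by
      by_contra hc
      push Not at hc
      exact h ⟨hc.1, hc.2.1, hc.2.2.1, hc.2.2.2⟩
    rcases h1 with h1 | h1 | h1 | h1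
    · rw [hu.out x (by omega), hu.out (x + 1) (by omega)]; ring
    · rw [hu.out x (by omega), hu.out (x + 1) (by omega)]; ring
    · rw [hu.out y (by omega), hu.out (y + 1) (by omega)]; ring
    · rw [hu.out y (by omega), hu.out (y + 1) (by omega)]; ring
  have h1 := pair_shift (d := d) hMp.le (fun x y => (u (x + 1) * u (y + 1) - r * (u x * u y)) ^ 2) hG a
  rw [← h1]
  set A : ZMod d → ℝ := fun j => ∑ x ∈ cls d p j, u (x + 1) ^ 2
  set V : ZMod d → ℝ := fun j => ∑ x ∈ cls d p j, u (x + 1) * u x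
  have hA : ∀ j, A j = 1 := by
    intro j
    have := sum_shift_class (d := d) (p := p) (fun x => u x ^ 2) (by rw [hu.out 0 (by omega)]; norm_num)
      (by rw [hu.out p (by omega)]; norm_num) j
    rw [show A j = _ from this, hu.sq]
  have hexp : ∑ x ∈ Ico (0 : ℤ) p, ∑ y ∈ cls d p ((x : ZMod d) + a),
        (u (x + 1) * u (y + 1) - r * (u x * u y)) ^ 2
      = ∑ j : ZMod d, (A j * A (j + a) - 2 * r * (V j * V (j + a)) + r ^ 2) := by
    have e1 := pair_class (d := d) (p := p) (fun x => u (x + 1) ^ 2) (fun y => u (y + 1) ^ 2) a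
    have e2 := pair_class (d := d) (p := p) (fun x => u (x + 1) * u x) (fun y => u (y + 1) * u y) a
    have e3 := pair_class (d := d) (p := p) (fun x => u x ^ 2) (fun y => u y ^ 2) a
    simp only at e1 e2 e3
    have e3' : ∑ x ∈ Ico (0 : ℤ) p, ∑ y ∈ cls d p ((x : ZMod d) + a),
        u x ^ 2 * u y ^ 2 = ∑ _j : ZMod d, (1 : ℝ) := by
      rw [e3]
      refine sum_congr rfl fun j _ => ?_
      rw [hu.sq, hu.sq, one_mul]
    calc _ = ∑ x ∈ Ico (0 : ℤ) p, ∑ y ∈ cls d p ((x : ZMod d) + a),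
        (u (x + 1) ^ 2 * u (y + 1) ^ 2 - 2 * r * ((u (x + 1) * u x) * (u (y + 1) * u y))
          + r ^ 2 * (u x ^ 2 * u y ^ 2)) := by
          refine sum_congr rfl fun x _ => sum_congr rfl fun y _ => ?_
          ring
      _ = _ := by
          simp only [← mul_sum] at e1 e2 e3'
          simp only [sum_add_distrib, sum_sub_distrib, ← mul_sum]
          rw [e1, e2, e3']
          simp [A, V]
          ring
  rw [hexp]
  have hV : ∀ j, V j ≤ 1 := by
    intro j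
    have h2 : 2 * V j ≤ A j + 1 := by
      rw [← hu.sq j]
      simp only [A, V]
      rw [mul_sum, ← sum_add_distrib]
      refine sum_le_sum fun x _ => ?_
      nlinarith [sq_nonneg (u (x + 1) - u x)]
    rw [hA j] at h2
    linarith
  have hVsum : ∑ j : ZMod d, V j ≥ d - E / 2 := by
    have s1 : ∑ j : ZMod d, V j = ∑ x ∈ Ico (0 : ℤ) p, u (x + 1) * u x := sum_class _
    have s2 : ∑ x ∈ Ico (0 : ℤ) p, u (x + 1) ^ 2 = d := by
      rw [← sum_class (d := d)]
      have : ∀ j : ZMod d, ∑ x ∈ cls d p j, u (x + 1) ^ 2 = 1 := hA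
      rw [sum_congr rfl fun j _ => this j]
      simp [ZMod.card]
    have s3 : ∑ x ∈ Ico (0 : ℤ) p, u x ^ 2 = d := by
      rw [← sum_class (d := d), sum_congr rfl fun j _ => hu.sq j]
      simp [ZMod.card]
    have s4 : ∑ x ∈ Ico (0 : ℤ) p, (u (x + 1) - u x) ^ 2
        = ∑ x ∈ Ico (0 : ℤ) p, u (x + 1) ^ 2 - 2 * ∑ x ∈ Ico (0 : ℤ) p, u (x + 1) * u x
          + ∑ x ∈ Ico (0 : ℤ) p, u x ^ 2 := by
      rw [mul_sum, ← sum_sub_distrib, ← sum_add_distrib]
      refine sum_congr rfl fun x _ => ?_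
      ring
    rw [s1]
    rw [s4, s2, s3] at hE
    linarith
  have hshift : ∑ j : ZMod d, V (j + a) = ∑ j : ZMod d, V j :=
    Equiv.sum_comp (Equiv.addRight a) V
  have hprod : ∑ j : ZMod d, V j * V (j + a) ≥ d - E := by
    calc ∑ j : ZMod d, V j * V (j + a) ≥ ∑ j : ZMod d, (V j + V (j + a) - 1) := by
          refine sum_le_sum fun j _ => ?_
          nlinarith [hV j, hV (j + a)]
      _ = 2 * ∑ j : ZMod d, V j - d := by
          rw [sum_sub_distrib, sum_add_distrib, hshift]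
          simp [ZMod.card]
          ring
      _ ≥ d - E := by linarith
  have hfin : ∑ j : ZMod d, (A j * A (j + a) - 2 * r * (V j * V (j + a)) + r ^ 2)
      = d - 2 * r * ∑ j : ZMod d, V j * V (j + a) + d * r ^ 2 := by
    rw [sum_add_distrib, sum_sub_distrib, ← mul_sum]
    rw [sum_congr rfl fun j _ => show A j * A (j + a) = 1 by rw [hA, hA, one_mul]]
    simp [ZMod.card]
  rw [hfin]
  have : 2 * r * ∑ j : ZMod d, V j * V (j + a) ≥ 2 * r * (d - E) :=
    mul_le_mul_of_nonneg_left hprod (by positivity)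
  nlinarith

end Pool.Agent.WHApprox
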