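import Mathlib

/-!
The numerical part: choice of the parameters.
-/

set_option autoImplicit false

namespace Pool.Agent.WHApprox

lemma exp_bound : Real.exp (-(4.71 : ℝ)) ≤ 0.0091 := by
  have h1 : (110 : ℝ) ≤ Real.exp 4.71 := by
    have h := Real.exp_one_gt_d9
    have e : Real.exp 4.71 = Real.exp 1 ^ 4 * Real.exp 0.71 := by
      rw [← Real.exp_nat_mul, ← Real.exp_add]
      norm_num
    have h2 : (2.03 : ℝ) ≤ Real.exp 0.71 := by
      have := Real.sum_le_exp_of_nonneg (x := (0.71 : ℝ)) (by norm_num) 5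
      refine le_trans ?_ this
      simp [Finset.sum_range_succ, Nat.factorial]
      norm_num
    rw [e]
    calc (110 : ℝ) ≤ 2.7182818283 ^ 4 * 2.03 := by norm_num
      _ ≤ Real.exp 1 ^ 4 * Real.exp 0.71 := by
          apply mul_le_mul (pow_le_pow_left₀ (by norm_num) h.le 4) h2 (by norm_num) (by positivity)
  have h2 : Real.exp (-(4.71 : ℝ)) * Real.exp 4.71 = 1 := by
    rw [← Real.exp_add]
    norm_num
  have h3 : 0 < Real.exp (-(4.71 : ℝ)) := Real.exp_pos _
  nlinarith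

/-- the closed form of the bound with `r = 1 - π / √(2 R D)` -/
lemma closed (D R p : ℝ) (r : ℝ) (hD : 24 ≤ D) (hR : D / 8 ≤ R) (hR2 : R ≤ D / 2)
    (hr : r = 1 - Real.pi / Real.sqrt (2 * R * D)) (P : ℕ) (hP : p = P)
    (hpR : D + R ≤ p) :
    0 ≤ r ∧ r < 1 ∧ 3 * (p * (1 / ((1 - r ^ 2) * (1 - r ^ P) ^ 2)) *
      (D * (1 - r) ^ 2 + 2 * r * (Real.pi ^ 2 / (4 * R))))
      ≤ 3 * p * Real.pi * Real.sqrt (D / (2 * R)) / 0.98188 := by
  have hD0 : 0 < D := by linarith
  have hR0 : 0 < R := by linarith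
  have hpi := Real.pi_pos
  have hpi2 := Real.pi_lt_d6
  have hpi3 := Real.pi_gt_d6
  set S := Real.sqrt (2 * R * D) with hS
  have hS2 : S ^ 2 = 2 * R * D := Real.sq_sqrt (by positivity)
  have hS0 : 0 < S := Real.sqrt_pos.2 (by positivity)
  have hS12 : 12 ≤ S := by
    rw [hS]
    apply Real.le_sqrt_of_sq_le
    nlinarith
  have hq : 0 < Real.pi / S := by positivity
  have hq1 : Real.pi / S ≤ 1 := by
    rw [div_le_one hS0]
    linarith
  have hr0 : 0 ≤ r := by rw [hr]; linarith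
  have hr1 : r < 1 := by rw [hr]; linarith
  refine ⟨hr0, hr1, ?_⟩
  have hrP : r ^ P ≤ 0.0091 := by
    have h1 : r ≤ Real.exp (-(Real.pi / S)) := by
      have := Real.add_one_le_exp (-(Real.pi / S))
      rw [hr]
      linarith
    calc r ^ P ≤ Real.exp (-(Real.pi / S)) ^ P := pow_le_pow_left₀ hr0 h1 P
      _ = Real.exp (-(Real.pi * p / S)) := by
          rw [← Real.exp_nat_mul, hP]
          congr 1
          ring
      _ ≤ Real.exp (-(4.71 : ℝ)) := by
          apply Real.exp_le_exp.2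
          rw [neg_le_neg_iff, le_div_iff₀ hS0]
          have h2 : 1.5 * S ≤ D + R := by
            have h3 : (1.5 * S) ^ 2 ≤ (D + R) ^ 2 := by
              rw [mul_pow, hS2]
              nlinarith [mul_nonneg (show 0 ≤ D - 2 * R by linarith) (show 0 ≤ D - R / 2 by linarith)]
            exact le_of_sq_le_sq h3 (by positivity)
          nlinarith
      _ ≤ _ := exp_bound
  have hrP0 : 0 ≤ r ^ P := pow_nonneg hr0 P
  have hsq : (0.98188 : ℝ) ≤ (1 - r ^ P) ^ 2 := by nlinarith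
  have e1 : D * (1 - r) ^ 2 = Real.pi ^ 2 / (2 * R) := by
    have : (1 - r) = Real.pi / S := by rw [hr]; ring
    rw [this, div_pow, hS2]
    field_simp
  have e2 : Real.sqrt (D / (2 * R)) = S / (2 * R) := by
    rw [eq_div_iff (by positivity)]
    have h1 : (0 : ℝ) ≤ 2 * R := by positivity
    calc Real.sqrt (D / (2 * R)) * (2 * R) = Real.sqrt (D / (2 * R)) * Real.sqrt ((2 * R) ^ 2) := by
          rw [Real.sqrt_sq h1]
      _ = S := by
          rw [← Real.sqrt_mul (by positivity), hS]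
          congr 1
          field_simp
  have h1r : 1 - r ^ 2 = Real.pi / S * (1 + r) := by
    rw [hr]; ring
  have h1r0 : 0 < 1 + r := by linarith
  have e3 : (1 / ((1 - r ^ 2) * 0.98188)) * (D * (1 - r) ^ 2 + 2 * r * (Real.pi ^ 2 / (4 * R)))
      = Real.pi * Real.sqrt (D / (2 * R)) / 0.98188 := by
    rw [e1, e2, h1r]
    field_simp
    ring
  have hp0 : 0 ≤ p := by linarith
  have h4 : 0 < 1 - r ^ 2 := by rw [h1r]; positivity
  have h5 : 1 / ((1 - r ^ 2) * (1 - r ^ P) ^ 2) ≤ 1 / ((1 - r ^ 2) * 0.98188) := by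
    apply one_div_le_one_div_of_le (by positivity)
    exact mul_le_mul_of_nonneg_left hsq h4.le
  calc 3 * (p * (1 / ((1 - r ^ 2) * (1 - r ^ P) ^ 2)) *
      (D * (1 - r) ^ 2 + 2 * r * (Real.pi ^ 2 / (4 * R))))
      ≤ 3 * (p * (1 / ((1 - r ^ 2) * 0.98188)) *
      (D * (1 - r) ^ 2 + 2 * r * (Real.pi ^ 2 / (4 * R)))) := by
        apply mul_le_mul_of_nonneg_left _ (by norm_num)
        apply mul_le_mul_of_nonneg_right _ (by positivity)
        exact mul_le_mul_of_nonneg_left h5 hp0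
    _ = 3 * p * ((1 / ((1 - r ^ 2) * 0.98188)) *
      (D * (1 - r) ^ 2 + 2 * r * (Real.pi ^ 2 / (4 * R)))) := by ring
    _ = _ := by rw [e3]; ring

lemma numericA (D R p : ℝ) (hD : 24 ≤ D) (hR : (D - 1) / 2 ≤ R)
    (hp : p ≤ (9 * D + 7) / 4) :
    3 * p * Real.pi * Real.sqrt (D / (2 * R)) / 0.98188 ≤ 24 * D ^ 2 / (D + 1) := by
  have hpi := Real.pi_pos
  have hpi2 := Real.pi_lt_d6
  have hs : Real.sqrt (D / (2 * R)) ≤ 1 + 1 / (2 * (D - 1)) := by
    have h1 : 0 < D - 1 := by linarith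
    apply Real.sqrt_le_iff.2
    constructor
    · positivity
    · have h2 : D / (2 * R) ≤ D / (D - 1) := by
        apply div_le_div_of_nonneg_left (by linarith) h1
        linarith
      have h3 : (1 + 1 / (2 * (D - 1))) ^ 2 = D / (D - 1) + (1 / (2 * (D - 1))) ^ 2 := by
        field_simp
        ring
      rw [h3]
      have := sq_nonneg (1 / (2 * (D - 1)))
      linarith
  have hs0 := Real.sqrt_nonneg (D / (2 * R))
  have h1 : 3 * p * Real.pi * Real.sqrt (D / (2 * R)) / 0.98188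
      ≤ 3 * ((9 * D + 7) / 4) * 3.141593 * (1 + 1 / (2 * (D - 1))) / 0.98188 := by
    apply div_le_div_of_nonneg_right _ (by norm_num)
    apply mul_le_mul _ hs hs0 (by positivity)
    apply mul_le_mul _ hpi2.le hpi.le (by positivity)
    linarith
  refine h1.trans ?_
  have hD1 : 0 < D - 1 := by linarith
  have : 3 * ((9 * D + 7) / 4) * 3.141593 * (1 + 1 / (2 * (D - 1))) / 0.98188
      = 3 * 3.141593 * (9 * D + 7) * (2 * D - 1) / (8 * (D - 1) * 0.98188) := by
    field_simp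
    ring
  rw [this, div_le_div_iff₀ (by positivity) (by positivity)]
  nlinarith [mul_nonneg (show 0 ≤ D - 24 by linarith) (show 0 ≤ D by linarith),
    mul_nonneg (mul_nonneg (show 0 ≤ D - 24 by linarith) (show 0 ≤ D by linarith)) (show 0 ≤ D by linarith)]

lemma numericB (D R p : ℝ) (hD : 24 ≤ D) (hR : D / 8 ≤ R) (hR2 : R ≤ D / 2)
    (hp : p = D + R + 1) :
    3 * p * Real.pi * Real.sqrt (D / (2 * R)) / 0.98188 ≤ 24 * D ^ 2 / (D + 1) := by
  have hpi := Real.pi_pos
  have hpi2 := Real.pi_lt_d6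
  have hR0 : 0 < R := by linarith
  have hp0 : 0 < p := by linarith
  have key : (D + R + 1) ^ 2 * (D + 1) ^ 2 ≤ 12.5 * R * D ^ 3 := by
    obtain ⟨t, ht⟩ : ∃ t, R = D / 8 + t := ⟨R - D / 8, by ring⟩
    have ht0 : 0 ≤ t := by linarith
    have ht1 : t ≤ 3 * D / 8 := by linarith
    have h1 : (9 * D / 8 + 1) * (D + 1) ≤ 1.25 * D ^ 2 := by nlinarith
    have h2 : ((9 * D / 8 + 1) * (D + 1)) ^ 2 ≤ (1.25 * D ^ 2) ^ 2 :=
      pow_le_pow_left₀ (by positivity) h1 2
    have h3 : (D + 1) ^ 2 * (2 * (9 * D / 8 + 1) + t) ≤ 12.5 * D ^ 3 := by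
      have h4 : (D + 1) ^ 2 * (2 * (9 * D / 8 + 1) + t) ≤ (D + 1) ^ 2 * (21 * D / 8 + 2) := by
        apply mul_le_mul_of_nonneg_left _ (by positivity)
        linarith
      refine h4.trans ?_
      nlinarith [mul_nonneg (show 0 ≤ D - 24 by linarith) (show 0 ≤ D by linarith),
        mul_nonneg (mul_nonneg (show 0 ≤ D - 24 by linarith) (show 0 ≤ D by linarith)) (show 0 ≤ D by linarith)]
    have h5 := mul_le_mul_of_nonneg_left h3 ht0
    rw [ht]
    nlinarith
  have hs : Real.sqrt (D / (2 * R)) ≤ 2.5 * D ^ 2 / ((D + R + 1) * (D + 1)) := by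
    apply Real.sqrt_le_iff.2
    constructor
    · positivity
    · rw [div_pow, div_le_div_iff₀ (by positivity) (by positivity)]
      nlinarith [mul_le_mul_of_nonneg_left key (show 0 ≤ D by linarith)]
  have hs0 := Real.sqrt_nonneg (D / (2 * R))
  calc 3 * p * Real.pi * Real.sqrt (D / (2 * R)) / 0.98188
      ≤ 3 * p * 3.141593 * (2.5 * D ^ 2 / ((D + R + 1) * (D + 1))) / 0.98188 := by
        apply div_le_div_of_nonneg_right _ (by norm_num)
        apply mul_le_mul _ hs hs0 (by positivity)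
        apply mul_le_mul le_rfl hpi2.le hpi.le (by positivity)
    _ = (3 * 3.141593 * 2.5 / 0.98188) * (D ^ 2 / (D + 1)) := by
        rw [hp]
        field_simp
    _ ≤ 24 * (D ^ 2 / (D + 1)) := by
        apply mul_le_mul_of_nonneg_right _ (by positivity)
        norm_num
    _ = 24 * D ^ 2 / (D + 1) := by ring

end Pool.Agent.WHApprox
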