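import Pool.Agent.Lib_MP_1c78a5_mp.Fold

/-!
The folded cubic chirp and its overlaps.
-/

set_option autoImplicit false

namespace Pool.Agent.WHApprox

open Finset

/-- the windowed cubic chirp on the integers -/
noncomputable def chirp (p : ℕ) [NeZero p] (u : ℤ → ℝ) (τ : ℂ) (x : ℤ) : ℂ :=
  (u x : ℂ) * τ ^ x * (ZMod.stdAddChar ((x : ZMod p) ^ 3) : ℂ)

/-- the folded chirp -/
noncomputable def fold (d p : ℕ) [NeZero p] (u : ℤ → ℝ) (τ : ℂ) (j : ZMod d) : ℂ :=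
  ∑ x ∈ cls d p j, chirp p u τ x

/-- the unnormalised overlap -/
noncomputable def ovl {d : ℕ} [NeZero d] (ψ : ZMod d → ℂ) (a : ZMod d) (z : ℂ) : ℂ :=
  ∑ j : ZMod d, (starRingEnd ℂ) (ψ (j + a)) * ψ j * z ^ ((j.val : ℕ) : ℤ)

lemma zpow_class {d : ℕ} [NeZero d] {z : ℂ} (hz : z ^ d = 1) (x : ℤ) (j : ZMod d)
    (h : (x : ZMod d) = j) : z ^ ((j.val : ℕ) : ℤ) = z ^ x := by
  have hz0 : z ≠ 0 := by
    intro h0
    rw [h0, zero_pow (NeZero.ne d)] at hz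
    exact zero_ne_one hz
  have h1 : ((x - (j.val : ℤ) : ℤ) : ZMod d) = 0 := by
    rw [Int.cast_sub, h, Int.cast_natCast, ZMod.natCast_zmod_val, sub_self]
  rw [ZMod.intCast_zmod_eq_zero_iff_dvd] at h1
  obtain ⟨k, hk⟩ := h1
  have h2 : x = (j.val : ℤ) + d * k := by omega
  rw [h2, zpow_add₀ hz0, zpow_mul, zpow_natCast, zpow_natCast, hz, one_zpow, mul_one]

lemma ovl_fold {d p M : ℕ} [NeZero d] [NeZero p] (hMp : M < p) {u : ℤ → ℝ}
    (hu : Window d p M u) (τ z : ℂ) (hz : z ^ d = 1) (a : ZMod d) :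
    ovl (fold d p u τ) a z
      = ∑ s ∈ shf d M a, ∑ x ∈ Ico (0 : ℤ) p,
          (starRingEnd ℂ) (chirp p u τ (x + s)) * chirp p u τ x * z ^ x := by
  have h0 : ∀ x : ℤ, ¬ (0 ≤ x ∧ x < M) → chirp p u τ x = 0 := by
    intro x hx
    unfold chirp
    rw [hu.out x (by omega)]
    simp
  rw [← pair_shift (d := d) hMp.le
    (fun x y => (starRingEnd ℂ) (chirp p u τ y) * chirp p u τ x * z ^ x)]
  · unfold ovl
    rw [← sum_fiberwise (Ico (0 : ℤ) p) (fun x : ℤ => (x : ZMod d))]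
    refine sum_congr rfl fun j _ => ?_
    unfold fold
    rw [mul_sum, sum_mul, map_sum]
    refine sum_congr rfl fun x hx => ?_
    have hx' : (x : ZMod d) = j := (mem_cls.1 hx).2
    rw [hx', zpow_class hz x j hx', sum_mul, sum_mul]
  · intro x y h
    by_cases hx : 0 ≤ x ∧ x < M
    · rw [h0 y (by tauto)]
      simp
    · rw [h0 x hx]
      simp

lemma conj_tau {τ : ℂ} (hτ : ‖τ‖ = 1) (x s : ℤ) :
    (starRingEnd ℂ) (τ ^ (x + s)) * τ ^ x = τ ^ (-s) := by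
  have hτ0 : τ ≠ 0 := by
    intro h
    rw [h, norm_zero] at hτ
    exact zero_ne_one hτ
  have h1 : (starRingEnd ℂ) τ = τ⁻¹ := by
    rw [Complex.inv_def, Complex.normSq_eq_norm_sq, hτ]
    norm_num
  rw [map_zpow₀, h1, inv_zpow', ← zpow_add₀ hτ0]
  congr 1
  ring

lemma term_bound {d p M : ℕ} [NeZero d] [Fact p.Prime] (hp : 3 < p) (hMp : M < p) {u : ℤ → ℝ}
    (hu : Window d p M u) {τ z : ℂ} (hτ : ‖τ‖ = 1) (hz : ‖z‖ = 1) (r : ℝ) (hr0 : 0 ≤ r)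
    (hr1 : r < 1) (s : ℤ) (hs : -(M : ℤ) < s ∧ s < M) (hs0 : s ≠ 0) :
    ‖∑ x ∈ Ico (0 : ℤ) p, (starRingEnd ℂ) (chirp p u τ (x + s)) * chirp p u τ x * z ^ x‖ ^ 2
      ≤ (p : ℝ) * (1 / ((1 - r ^ 2) * (1 - r ^ p) ^ 2)) *
        ∑ x ∈ Ico (0 : ℤ) p, (u (x + 1) * u (x + s + 1) - r * (u x * u (x + s))) ^ 2 := by
  have hsp : (s : ZMod p) ≠ 0 := by
    intro h
    rw [ZMod.intCast_zmod_eq_zero_iff_dvd] at h
    have := Int.eq_zero_of_abs_lt_dvd h (by rw [abs_lt]; constructor <;> omega)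
    exact hs0 this
  have h1 : ∀ x : ℤ, (starRingEnd ℂ) (chirp p u τ (x + s)) * chirp p u τ x * z ^ x
      = τ ^ (-s) * (((u x * u (x + s) : ℝ) : ℂ) * z ^ x *
        (ZMod.stdAddChar ((x : ZMod p) ^ 3 - ((x : ZMod p) + (s : ZMod p)) ^ 3) : ℂ)) := by
    intro x
    unfold chirp
    rw [← conj_tau hτ x s, sub_eq_add_neg, AddChar.map_add_eq_mul, AddChar.map_neg_eq_conj]
    simp only [map_mul, Complex.conj_ofReal]
    push_cast
    ring
  rw [sum_congr rfl fun x _ => h1 x, ← mul_sum, norm_mul, norm_zpow, hτ, one_zpow, one_mul]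
  have h2 := cubic_bound hp s hsp (fun x => u x * u (x + s)) (by simp [hu.out 0 (by omega)])
    (by simp [hu.out p (by omega)]) z hz r hr0 hr1
  refine h2.trans (le_of_eq ?_)
  congr 1
  refine sum_congr rfl fun x _ => ?_
  rw [show x + 1 + s = x + s + 1 by ring]

lemma card_shf {d M : ℕ} [NeZero d] (hM : 2 * M ≤ 3 * d) (a : ZMod d) : (shf d M a).card ≤ 3 := by
  have hd : 0 < d := Nat.pos_of_ne_zero (NeZero.ne d)
  have hsub : shf d M a ⊆ (Ioc (-(M : ℤ)) (M - 1)).filter (fun x => x ≡ (a.val : ℤ) [ZMOD (d : ℤ)]) := by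
    intro s hs
    rw [mem_shf] at hs
    rw [mem_filter, mem_Ioc]
    refine ⟨⟨hs.1.1, by omega⟩, ?_⟩
    rw [← ZMod.intCast_eq_intCast_iff, hs.2, Int.cast_natCast, ZMod.natCast_zmod_val]
  have h1 := card_le_card hsub
  have h2 := Int.Ioc_filter_modEq_card (-(M : ℤ)) ((M : ℤ) - 1) (r := (d : ℤ)) (by exact_mod_cast hd)
    (a.val : ℤ)
  have h3 : ⌊((((M : ℤ) - 1 : ℤ) : ℚ) - ((a.val : ℤ) : ℚ)) / ((d : ℤ) : ℚ)⌋
      - ⌊(((-(M : ℤ) : ℤ) : ℚ) - ((a.val : ℤ) : ℚ)) / ((d : ℤ) : ℚ)⌋ ≤ 3 := by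
    set A : ℚ := ((((M : ℤ) - 1 : ℤ) : ℚ) - ((a.val : ℤ) : ℚ)) / ((d : ℤ) : ℚ) with hA
    set B : ℚ := (((-(M : ℤ) : ℤ) : ℚ) - ((a.val : ℤ) : ℚ)) / ((d : ℤ) : ℚ) with hB
    have hd' : (0 : ℚ) < ((d : ℤ) : ℚ) := by exact_mod_cast hd
    have hAB : A - B < 3 := by
      rw [hA, hB, ← sub_div, div_lt_iff₀ hd']
      push_cast
      have : (2 * M : ℚ) ≤ 3 * d := by exact_mod_cast hM
      linarith
    have hA1 := Int.floor_le A
    have hB1 := Int.lt_floor_add_one B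
    have : ((⌊A⌋ - ⌊B⌋ : ℤ) : ℚ) < 4 := by
      push_cast
      linarith
    have h4 : ⌊A⌋ - ⌊B⌋ < 4 := by exact_mod_cast this
    omega
  have h5 : (((Ioc (-(M : ℤ)) (M - 1)).filter (fun x => x ≡ (a.val : ℤ) [ZMOD (d : ℤ)])).card : ℤ) ≤ 3 := by
    rw [h2]
    exact max_le h3 (by norm_num)
  have h6 : ((Ioc (-(M : ℤ)) (M - 1)).filter (fun x => x ≡ (a.val : ℤ) [ZMOD (d : ℤ)])).card ≤ 3 := by
    exact_mod_cast h5
  exact h1.trans h6

lemma sum_root {d : ℕ} [NeZero d] {z : ℂ} (hz : z ^ d = 1) (hz1 : z ≠ 1) :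
    ∑ j : ZMod d, z ^ ((j.val : ℕ) : ℤ) = 0 := by
  rw [← sum_Ico_zmod d (fun x => z ^ x)]
  have h1 : ∑ x ∈ Ico (0 : ℤ) d, z ^ x = ∑ i ∈ range d, z ^ i := by
    symm
    refine sum_bij (fun i _ => (i : ℤ)) ?_ ?_ ?_ ?_
    · intro i hi
      rw [mem_range] at hi
      rw [mem_Ico]
      omega
    · intro i _ j _ h
      exact_mod_cast h
    · intro x hx
      rw [mem_Ico] at hx
      exact ⟨x.toNat, by rw [mem_range]; omega, by omega⟩
    · intro i _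
      rw [zpow_natCast]
  rw [h1, geom_sum_eq hz1, hz, sub_self, zero_div]

/-- the term `s = 0` -/
lemma term_zero {d p M : ℕ} [NeZero d] [Fact p.Prime] {u : ℤ → ℝ}
    (hu : Window d p M u) {τ z : ℂ} (hτ : ‖τ‖ = 1) (hz : z ^ d = 1) (hz1 : z ≠ 1) :
    ∑ x ∈ Ico (0 : ℤ) p, (starRingEnd ℂ) (chirp p u τ x) * chirp p u τ x * z ^ x = 0 := by
  have h1 : ∀ x : ℤ, (starRingEnd ℂ) (chirp p u τ x) * chirp p u τ x * z ^ x
      = ((u x ^ 2 : ℝ) : ℂ) * z ^ x := by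
    intro x
    rw [mul_comm ((starRingEnd ℂ) _), Complex.mul_conj, Complex.normSq_eq_norm_sq]
    unfold chirp
    rw [norm_mul, norm_mul, norm_zpow, hτ, one_zpow, mul_one, AddChar.norm_apply, mul_one,
      Complex.norm_real, Real.norm_eq_abs, sq_abs]
  rw [sum_congr rfl fun x _ => h1 x, ← sum_class (d := d)]
  have h2 : ∀ j : ZMod d, ∑ x ∈ cls d p j, ((u x ^ 2 : ℝ) : ℂ) * z ^ x = z ^ ((j.val : ℕ) : ℤ) := by
    intro j
    have : ∀ x ∈ cls d p j, ((u x ^ 2 : ℝ) : ℂ) * z ^ x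
        = ((u x ^ 2 : ℝ) : ℂ) * z ^ ((j.val : ℕ) : ℤ) := by
      intro x hx
      rw [zpow_class hz x j (mem_cls.1 hx).2]
    rw [sum_congr rfl this, ← sum_mul, ← Complex.ofReal_sum, hu.sq]
    simp
  rw [sum_congr rfl fun j _ => h2 j]
  exact sum_root hz hz1

/-- The main estimate for the unnormalised overlaps. -/
theorem ovl_bound {d p M : ℕ} [NeZero d] [Fact p.Prime] (hp : 3 < p) (hMp : M < p)
    (hM : 2 * M ≤ 3 * d) {u : ℤ → ℝ}
    (hu : Window d p M u) (E : ℝ) (hE : ∑ x ∈ Ico (0 : ℤ) p, (u (x + 1) - u x) ^ 2 ≤ E)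
    {τ z : ℂ} (hτ : ‖τ‖ = 1) (hz : z ^ d = 1) (r : ℝ) (hr0 : 0 ≤ r)
    (hr1 : r < 1) (a : ZMod d) (haz : a ≠ 0 ∨ z ≠ 1) :
    ‖ovl (fold d p u τ) a z‖ ^ 2
      ≤ 3 * (p * (1 / ((1 - r ^ 2) * (1 - r ^ p) ^ 2)) * (d * (1 - r) ^ 2 + 2 * r * E)) := by
  have hz' : ‖z‖ = 1 := by
    have := congrArg norm hz
    rw [norm_pow, norm_one] at this
    exact (pow_eq_one_iff_of_nonneg (norm_nonneg z) (NeZero.ne d)).1 this
  have hp0 : p ≠ 0 := by omega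
  have hκ : 0 ≤ (p : ℝ) * (1 / ((1 - r ^ 2) * (1 - r ^ p) ^ 2)) := by
    have : r ^ 2 < 1 := pow_lt_one₀ hr0 hr1 (by norm_num)
    have h2 : 0 < 1 - r ^ 2 := by linarith
    positivity
  set S : ℤ → ℂ := fun s => ∑ x ∈ Ico (0 : ℤ) p,
          (starRingEnd ℂ) (chirp p u τ (x + s)) * chirp p u τ x * z ^ x with hS
  have h1 : ovl (fold d p u τ) a z = ∑ s ∈ (shf d M a).erase 0, S s := by
    rw [ovl_fold hMp hu τ z hz a]
    by_cases h0 : (0 : ℤ) ∈ shf d M a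
    · rw [← sum_erase_add _ _ h0]
      have ha : a = 0 := by
        have := (mem_shf.1 h0).2
        simpa using this.symm
      have hz1 : z ≠ 1 := by
        rcases haz with h | h
        · exact absurd ha h
        · exact h
      have := term_zero (p := p) hu hτ hz hz1
      simp only [add_zero]
      rw [this, add_zero]
    · rw [erase_eq_of_notMem h0]
  have h2 : ‖∑ s ∈ (shf d M a).erase 0, S s‖ ^ 2
      ≤ ((shf d M a).erase 0).card * ∑ s ∈ (shf d M a).erase 0, ‖S s‖ ^ 2 := by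
    calc ‖∑ s ∈ (shf d M a).erase 0, S s‖ ^ 2 ≤ (∑ s ∈ (shf d M a).erase 0, ‖S s‖) ^ 2 :=
          pow_le_pow_left₀ (norm_nonneg _) (norm_sum_le _ _) 2
      _ ≤ _ := sq_sum_le_card_mul_sum_sq
  have h3 : (((shf d M a).erase 0).card : ℝ) ≤ 3 := by
    have := (card_le_card (erase_subset (0 : ℤ) (shf d M a))).trans (card_shf hM a)
    exact_mod_cast this
  have h4 : ∑ s ∈ (shf d M a).erase 0, ‖S s‖ ^ 2
      ≤ p * (1 / ((1 - r ^ 2) * (1 - r ^ p) ^ 2)) * (d * (1 - r) ^ 2 + 2 * r * E) := by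
    calc ∑ s ∈ (shf d M a).erase 0, ‖S s‖ ^ 2
        ≤ ∑ s ∈ (shf d M a).erase 0, (p : ℝ) * (1 / ((1 - r ^ 2) * (1 - r ^ p) ^ 2)) *
        ∑ x ∈ Ico (0 : ℤ) p, (u (x + 1) * u (x + s + 1) - r * (u x * u (x + s))) ^ 2 := by
          refine sum_le_sum fun s hs => ?_
          rw [mem_erase, mem_shf] at hs
          exact term_bound hp hMp hu hτ hz' r hr0 hr1 s hs.2.1 hs.1
      _ = (p : ℝ) * (1 / ((1 - r ^ 2) * (1 - r ^ p) ^ 2)) *
          ∑ s ∈ (shf d M a).erase 0, ∑ x ∈ Ico (0 : ℤ) p,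
            (u (x + 1) * u (x + s + 1) - r * (u x * u (x + s))) ^ 2 := by rw [mul_sum]
      _ ≤ (p : ℝ) * (1 / ((1 - r ^ 2) * (1 - r ^ p) ^ 2)) *
          ∑ s ∈ shf d M a, ∑ x ∈ Ico (0 : ℤ) p,
            (u (x + 1) * u (x + s + 1) - r * (u x * u (x + s))) ^ 2 := by
          apply mul_le_mul_of_nonneg_left _ hκ
          apply sum_le_sum_of_subset_of_nonneg (erase_subset _ _)
          intro s _ _
          exact sum_nonneg fun x _ => sq_nonneg _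
      _ ≤ _ := by
          apply mul_le_mul_of_nonneg_left _ hκ
          exact energy hMp hu E hE r hr0 a
  rw [h1]
  calc ‖∑ s ∈ (shf d M a).erase 0, S s‖ ^ 2
      ≤ ((shf d M a).erase 0).card * ∑ s ∈ (shf d M a).erase 0, ‖S s‖ ^ 2 := h2
    _ ≤ 3 * ∑ s ∈ (shf d M a).erase 0, ‖S s‖ ^ 2 :=
        mul_le_mul_of_nonneg_right h3 (sum_nonneg fun _ _ => by positivity)
    _ ≤ _ := mul_le_mul_of_nonneg_left h4 (by norm_num)

end Pool.Agent.WHApprox
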