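import Pool.Agent.Lib_MP_1c78a5_mp.Perturb

/-!
The perturbed vector is an approximate SIC fiducial with two-sided error.
-/

set_option autoImplicit false

namespace Pool.Agent.WHApprox

open Finset

lemma final_number {X N ε : ℝ} (hε0 : 0 < ε) (hε : ε ≤ 1 / 2) (hX0 : 0 ≤ X) (hX : |X - 1| ≤ 6 * ε)
    (hN1 : 1 ≤ N) (hN2 : N ≤ 1 + 2 * ε) : |X ^ 2 / N ^ 2 - 1| ≤ 32 * ε := by
  rw [abs_le] at hX ⊢
  have hN0 : 0 < N := by linarith
  constructor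
  · by_cases h : 1 ≤ 32 * ε
    · have : 0 ≤ X ^ 2 / N ^ 2 := by positivity
      linarith
    · push Not at h
      have h1 : (1 - 16 * ε) * N ^ 2 ≤ X ^ 2 := by
        have h2 : 1 - 6 * ε ≤ X := by linarith
        have h3 : (1 - 6 * ε) ^ 2 ≤ X ^ 2 := pow_le_pow_left₀ (by linarith) h2 2
        have h4 : N ^ 2 ≤ (1 + 2 * ε) ^ 2 := pow_le_pow_left₀ hN0.le hN2 2
        have h5 : (1 - 16 * ε) * N ^ 2 ≤ (1 - 16 * ε) * (1 + 2 * ε) ^ 2 :=
          mul_le_mul_of_nonneg_left h4 (by linarith)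
        have h6 : (1 - 16 * ε) * (1 + 2 * ε) ^ 2 ≤ (1 - 6 * ε) ^ 2 := by nlinarith [sq_nonneg ε]
        linarith
      have h7 : 1 - 16 * ε ≤ X ^ 2 / N ^ 2 := by
        rw [le_div_iff₀ (by positivity)]
        exact h1
      linarith
  · have h1 : X ^ 2 / N ^ 2 ≤ X ^ 2 := by
      apply div_le_self (by positivity)
      nlinarith
    have h2 : X ^ 2 ≤ (1 + 6 * ε) ^ 2 := pow_le_pow_left₀ hX0 (by linarith) 2
    nlinarith

theorem pert_final (d : ℕ) [NeZero d] (hd : 17 ≤ d) (ε : ℝ) (hε0 : 0 < ε) (hε4 : ε ^ 4 = 1 / d)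
    (f : ZMod d → ℂ) (γ : ℝ) (hγ : γ = 0 ∨ γ = ε ^ 3) (hf : ∀ j, ‖f j‖ = ε ^ 2)
    (hF : ∀ z : ℂ, z ^ d = 1 → γ * ‖∑ j : ZMod d, f j * z ^ ((j.val : ℕ) : ℤ)‖ ≤ γ * 1.03)
    (hF0 : γ * ‖∑ j : ZMod d, f j‖ ≤ γ * ε ^ 2)
    (hM : ∀ (a : ZMod d) (z : ℂ), z ^ d = 1 → (a ≠ 0 ∨ z ≠ 1) →
      |Real.sqrt (d + 1) * ‖ovl f a z + (if a = 0 then (ε : ℂ) ^ 2 else 0)
          + (γ : ℂ) ^ 2 * ∑ j : ZMod d, z ^ ((j.val : ℕ) : ℤ)‖ - 1| ≤ 0.7 * ε) :
    ∃ ψ : ZMod d → ℂ, ∑ j, ‖ψ j‖ ^ 2 = 1 ∧ ∀ (a : ZMod d) (z : ℂ), z ^ d = 1 → (a ≠ 0 ∨ z ≠ 1) →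
      |((d : ℝ) + 1) * ‖ovl ψ a z‖ ^ 2 - 1| ≤ 32 * ε := by
  have hd0 : (0 : ℝ) < d := by exact_mod_cast Nat.pos_of_ne_zero (NeZero.ne d)
  have hd17 : (17 : ℝ) ≤ d := by exact_mod_cast hd
  have hε5 : ε ≤ 0.4925 := by
    by_contra h
    push Not at h
    have h1 : (0.4925 : ℝ) ^ 4 < ε ^ 4 := pow_lt_pow_left₀ h (by norm_num) (by norm_num)
    have h2 : (1 : ℝ) / d ≤ 1 / 17 := one_div_le_one_div_of_le (by norm_num) hd17
    rw [hε4] at h1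
    norm_num at h1 h2
    linarith
  have hγ0 : 0 ≤ γ := by
    rcases hγ with h | h
    · rw [h]
    · rw [h]; positivity
  have hγ3 : γ ≤ ε ^ 3 := by
    rcases hγ with h | h
    · rw [h]; positivity
    · rw [h]
  have hγd : γ ^ 2 * d ≤ ε ^ 2 ∧ (γ = 0 ∨ γ ^ 2 * d = ε ^ 2) := by
    rcases hγ with h | h
    · rw [h]
      refine ⟨by simp; positivity, Or.inl rfl⟩
    · have : γ ^ 2 * d = ε ^ 2 := by
        rw [h]
        have : (ε ^ 3) ^ 2 * (d : ℝ) = ε ^ 2 * (ε ^ 4 * d) := by ring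
        rw [this, hε4]
        field_simp
      exact ⟨this.le, Or.inr this⟩
  -- the square root of d + 1
  set s := Real.sqrt ((d : ℝ) + 1) with hs
  have hs0 : 0 ≤ s := Real.sqrt_nonneg _
  have hs2 : s ^ 2 = d + 1 := Real.sq_sqrt (by positivity)
  have hsε : s * ε ^ 2 ≤ 1.03 := by
    have h1 : (s * ε ^ 2) ^ 2 ≤ 1.03 ^ 2 := by
      have : (s * ε ^ 2) ^ 2 = (d + 1) * ε ^ 4 := by rw [mul_pow, hs2]; ring
      rw [this, hε4]
      have : ((d : ℝ) + 1) * (1 / d) = 1 + 1 / d := by field_simp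
      rw [this]
      have h2 : (1 : ℝ) / d ≤ 1 / 17 := one_div_le_one_div_of_le (by norm_num) hd17
      norm_num at h2 ⊢
      linarith
    exact le_of_sq_le_sq h1 (by norm_num)
  set φ := pert f ε γ with hφ
  -- the squared norm
  obtain ⟨N, hN⟩ : ∃ N : ℝ, N = ∑ j : ZMod d, ‖φ j‖ ^ 2 := ⟨_, rfl⟩
  have hNC : (N : ℂ) = ovl φ 0 1 := by
    rw [hN]
    unfold ovl
    push_cast
    refine sum_congr rfl fun j _ => ?_
    rw [add_zero, one_zpow, mul_one, mul_comm, Complex.mul_conj, Complex.normSq_eq_norm_sq]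
    push_cast
    rfl
  have hf0 : ovl f 0 1 = 1 := by
    unfold ovl
    have : ∀ j : ZMod d, (starRingEnd ℂ) (f (j + 0)) * f j * (1 : ℂ) ^ ((j.val : ℕ) : ℤ)
        = ((ε ^ 4 : ℝ) : ℂ) := by
      intro j
      rw [add_zero, one_zpow, mul_one, mul_comm, Complex.mul_conj, Complex.normSq_eq_norm_sq, hf]
      congr 1
      ring
    rw [sum_congr rfl fun j _ => this j, sum_const, card_univ, ZMod.card, nsmul_eq_mul, hε4]
    push_cast
    have : (d : ℂ) ≠ 0 := by exact_mod_cast NeZero.ne d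
    field_simp
  have hNb : |N - (1 + ε ^ 2 + γ ^ 2 * d)| ≤ 2 * ε * ε ^ 2 + 2 * γ * ε ^ 2 + 2 * ε * γ := by
    have h1 := ovl_pert f ε γ 0 1
    rw [← hφ, ← hNC, hf0] at h1
    have h2 := cross_bound f ε γ (ε ^ 2) (ε ^ 2) hε0.le hγ0 hf 0 (one_pow d)
      (by simpa using hF0) (by simpa using hF0)
    rw [if_pos rfl] at h1
    have h3 : ((N - (1 + ε ^ 2 + γ ^ 2 * d) : ℝ) : ℂ) = (ε : ℂ) * (starRingEnd ℂ) (f 0)
          + (γ : ℂ) * ∑ j : ZMod d, (starRingEnd ℂ) (f (j + 0)) * (1 : ℂ) ^ ((j.val : ℕ) : ℤ)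
          + (ε : ℂ) * (f (-0) * (1 : ℂ) ^ (((-(0 : ZMod d)).val : ℕ) : ℤ))
          + (ε : ℂ) * γ * (1 : ℂ) ^ (((-(0 : ZMod d)).val : ℕ) : ℤ)
          + (γ : ℂ) * ∑ j : ZMod d, f j * (1 : ℂ) ^ ((j.val : ℕ) : ℤ)
          + (γ : ℂ) * ε := by
      push_cast
      rw [h1]
      simp [ZMod.card]
    rw [← h3, Complex.norm_real, Real.norm_eq_abs] at h2
    exact h2
  have hN1 : 1 ≤ N ∧ N ≤ 1 + 2 * ε := by
    rw [abs_le] at hNb
    have e2 : ε ^ 2 ≤ 0.4925 * ε := by nlinarith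
    have e3 : ε ^ 3 ≤ 0.4925 * ε ^ 2 := by nlinarith [sq_nonneg ε]
    have e4 : ε ^ 4 ≤ 0.4925 * ε ^ 3 := by nlinarith [pow_pos hε0 3]
    have e5 : ε ^ 5 ≤ 0.4925 * ε ^ 4 := by nlinarith [pow_pos hε0 4]
    have g1 : γ * ε ^ 2 ≤ ε ^ 5 := by nlinarith [sq_nonneg ε]
    have g2 : ε * γ ≤ ε ^ 4 := by nlinarith
    have hp2 : 0 < ε ^ 2 := by positivity
    rcases hγd.2 with h | h
    · subst h
      constructor
      · nlinarith
      · nlinarith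
    · constructor
      · nlinarith
      · nlinarith
  have hNpos : 0 < N := by linarith [hN1.1]
  have hc2 : (1 / Real.sqrt N) ^ 2 = 1 / N := by
    rw [div_pow, one_pow, Real.sq_sqrt hNpos.le]
  refine ⟨fun j => ((1 / Real.sqrt N : ℝ) : ℂ) * φ j, ?_, ?_⟩
  · have : ∀ j : ZMod d, ‖((1 / Real.sqrt N : ℝ) : ℂ) * φ j‖ ^ 2 = 1 / N * ‖φ j‖ ^ 2 := by
      intro j
      rw [norm_mul, mul_pow, Complex.norm_real, Real.norm_eq_abs, sq_abs, hc2]
    rw [sum_congr rfl fun j _ => this j, ← mul_sum, ← hN]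
    field_simp
  · intro a z hz haz
    have hsmul : ovl (fun j => ((1 / Real.sqrt N : ℝ) : ℂ) * φ j) a z
        = ((1 / N : ℝ) : ℂ) * ovl φ a z := by
      rw [← hc2]
      unfold ovl
      rw [mul_sum]
      refine sum_congr rfl fun j _ => ?_
      simp only [map_mul, Complex.conj_ofReal]
      push_cast
      ring
    have hzc : ((starRingEnd ℂ) z) ^ d = 1 := by rw [← map_pow, hz, map_one]
    have h1 := ovl_pert f ε γ a z
    have h2 := cross_bound f ε γ (ε ^ 2) 1.03 hε0.le hγ0 hf a hz (hF z hz) (hF _ hzc)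
    set mainp := ovl f a z + (if a = 0 then (ε : ℂ) ^ 2 else 0)
          + (γ : ℂ) ^ 2 * ∑ j : ZMod d, z ^ ((j.val : ℕ) : ℤ) with hmain
    set crossp := (ε : ℂ) * (starRingEnd ℂ) (f a)
          + (γ : ℂ) * ∑ j : ZMod d, (starRingEnd ℂ) (f (j + a)) * z ^ ((j.val : ℕ) : ℤ)
          + (ε : ℂ) * (f (-a) * z ^ (((-a).val : ℕ) : ℤ))
          + (ε : ℂ) * γ * z ^ (((-a).val : ℕ) : ℤ)
          + (γ : ℂ) * ∑ j : ZMod d, f j * z ^ ((j.val : ℕ) : ℤ)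
          + (γ : ℂ) * ε with hcross
    have h3 := hM a z hz haz
    rw [← hmain] at h3
    have hX : |s * ‖ovl φ a z‖ - 1| ≤ 6 * ε := by
      have e0 : |s * ‖ovl φ a z‖ - s * ‖mainp‖| ≤ s * ‖crossp‖ := by
        rw [← mul_sub, abs_mul, abs_of_nonneg hs0]
        apply mul_le_mul_of_nonneg_left _ hs0
        have := abs_norm_sub_norm_le (ovl φ a z) mainp
        rw [hφ, h1, add_sub_cancel_left] at this
        rw [hφ, h1]
        exact this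
      have e1 : s * ‖crossp‖ ≤ 5.3 * ε := by
        have e2 : ‖crossp‖ ≤ ε ^ 2 * (4.06 * ε + 2 * ε ^ 2) := by
          refine h2.trans ?_
          have g2 : ε * γ ≤ ε ^ 4 := by nlinarith
          nlinarith [pow_pos hε0 3]
        calc s * ‖crossp‖ ≤ s * (ε ^ 2 * (4.06 * ε + 2 * ε ^ 2)) := mul_le_mul_of_nonneg_left e2 hs0
          _ = (s * ε ^ 2) * (4.06 * ε + 2 * ε ^ 2) := by ring
          _ ≤ 1.03 * (4.06 * ε + 2 * ε ^ 2) := mul_le_mul_of_nonneg_right hsε (by positivity)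
          _ ≤ 5.3 * ε := by nlinarith
      rw [abs_le] at e0 h3 ⊢
      constructor
      · linarith
      · linarith
    have hfin := final_number hε0 (by linarith) (by positivity) hX hN1.1 hN1.2
    have : ((d : ℝ) + 1) * ‖ovl (fun j => ((1 / Real.sqrt N : ℝ) : ℂ) * φ j) a z‖ ^ 2
        = (s * ‖ovl φ a z‖) ^ 2 / N ^ 2 := by
      rw [hsmul, norm_mul, Complex.norm_real, Real.norm_of_nonneg (by positivity), mul_pow, mul_pow, hs2]
      field_simp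
    rw [this]
    exact hfin

end Pool.Agent.WHApprox
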