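import Pool.Agent.Lib_MP_1c78a5_mp.Overlap

/-!
Perturbation of a flat vector with flat ambiguity function: `φ = f + α e₀ + (γ/√d) 1`.
-/

set_option autoImplicit false

namespace Pool.Agent.WHApprox

open Finset

/-- the perturbed vector -/
noncomputable def pert {d : ℕ} [NeZero d] (f : ZMod d → ℂ) (α γ : ℝ) (j : ZMod d) : ℂ :=
  f j + (if j = 0 then (α : ℂ) else 0) + (γ : ℂ)

lemma sum_ite_zero {d : ℕ} [NeZero d] (F : ZMod d → ℂ) (a : ZMod d) (c : ℂ) :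
    ∑ j : ZMod d, (if j + a = 0 then c else 0) * F j = c * F (-a) := by
  rw [sum_eq_single (-a)]
  · simp
  · intro j _ hj
    rw [if_neg, zero_mul]
    intro h
    exact hj (eq_neg_of_add_eq_zero_left h)
  · intro h
    exact absurd (mem_univ _) h

/-- expansion of the overlap of the perturbed vector -/
lemma ovl_pert {d : ℕ} [NeZero d] (f : ZMod d → ℂ) (α γ : ℝ) (a : ZMod d) (z : ℂ) :
    ovl (pert f α γ) a z
      = (ovl f a z + (if a = 0 then (α : ℂ) ^ 2 else 0)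
          + (γ : ℂ) ^ 2 * ∑ j : ZMod d, z ^ ((j.val : ℕ) : ℤ))
        + ((α : ℂ) * (starRingEnd ℂ) (f a)
          + (γ : ℂ) * ∑ j : ZMod d, (starRingEnd ℂ) (f (j + a)) * z ^ ((j.val : ℕ) : ℤ)
          + (α : ℂ) * (f (-a) * z ^ (((-a).val : ℕ) : ℤ))
          + (α : ℂ) * γ * z ^ (((-a).val : ℕ) : ℤ)
          + (γ : ℂ) * ∑ j : ZMod d, f j * z ^ ((j.val : ℕ) : ℤ)
          + (γ : ℂ) * α) := by
  have h1 : ∀ j : ZMod d, (starRingEnd ℂ) (pert f α γ (j + a)) * pert f α γ j * z ^ ((j.val : ℕ) : ℤ)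
      = (starRingEnd ℂ) (f (j + a)) * f j * z ^ ((j.val : ℕ) : ℤ)
        + (if j + 0 = 0 then (α : ℂ) else 0) * ((starRingEnd ℂ) (f (j + a)) * z ^ ((j.val : ℕ) : ℤ))
        + (γ : ℂ) * ((starRingEnd ℂ) (f (j + a)) * z ^ ((j.val : ℕ) : ℤ))
        + (if j + a = 0 then (α : ℂ) else 0) * (f j * z ^ ((j.val : ℕ) : ℤ))
        + (if j + a = 0 then (α : ℂ) else 0) * ((if j = 0 then (α : ℂ) else 0) * z ^ ((j.val : ℕ) : ℤ))
        + (if j + a = 0 then (α : ℂ) else 0) * ((γ : ℂ) * z ^ ((j.val : ℕ) : ℤ))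
        + (γ : ℂ) * (f j * z ^ ((j.val : ℕ) : ℤ))
        + (if j + 0 = 0 then (α : ℂ) else 0) * ((γ : ℂ) * z ^ ((j.val : ℕ) : ℤ))
        + (γ : ℂ) ^ 2 * z ^ ((j.val : ℕ) : ℤ) := by
    intro j
    unfold pert
    have hc : (starRingEnd ℂ) (if j + a = 0 then (α : ℂ) else 0) = if j + a = 0 then (α : ℂ) else 0 := by
      split_ifs <;> simp
    rw [map_add, map_add, hc, Complex.conj_ofReal, add_zero]
    ring
  unfold ovl
  rw [sum_congr rfl fun j _ => h1 j]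
  simp only [sum_add_distrib, sum_ite_zero, ← mul_sum]
  simp only [neg_zero, ZMod.val_zero, Nat.cast_zero, zpow_zero, mul_one, zero_add, neg_eq_zero]
  by_cases ha : a = 0
  · subst ha
    simp
    ring
  · simp only [if_neg ha]
    ring

lemma norm_root {d : ℕ} [NeZero d] {z : ℂ} (hz : z ^ d = 1) : ‖z‖ = 1 := by
  have := congrArg norm hz
  rw [norm_pow, norm_one] at this
  exact (pow_eq_one_iff_of_nonneg (norm_nonneg z) (NeZero.ne d)).1 this

/-- shifting the argument in a Fourier coefficient -/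
lemma fourier_shift {d : ℕ} [NeZero d] (f : ZMod d → ℂ) (a : ZMod d) {z : ℂ} (hz : z ^ d = 1) :
    ‖∑ j : ZMod d, (starRingEnd ℂ) (f (j + a)) * z ^ ((j.val : ℕ) : ℤ)‖
      = ‖∑ j : ZMod d, f j * ((starRingEnd ℂ) z) ^ ((j.val : ℕ) : ℤ)‖ := by
  have hz0 : z ≠ 0 := by
    intro h
    have := norm_root hz
    rw [h, norm_zero] at this
    exact zero_ne_one this
  have h1 : ∑ j : ZMod d, (starRingEnd ℂ) (f (j + a)) * z ^ ((j.val : ℕ) : ℤ)
      = z ^ (-((a.val : ℕ) : ℤ)) * (starRingEnd ℂ) (∑ j : ZMod d, f j * ((starRingEnd ℂ) z) ^ ((j.val : ℕ) : ℤ)) := by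
    rw [map_sum, mul_sum, ← Equiv.sum_comp (Equiv.addRight a)
      (fun j => z ^ (-((a.val : ℕ) : ℤ)) * (starRingEnd ℂ) (f j * ((starRingEnd ℂ) z) ^ ((j.val : ℕ) : ℤ)))]
    refine sum_congr rfl fun j _ => ?_
    simp only [Equiv.coe_addRight]
    rw [map_mul, map_zpow₀, Complex.conj_conj]
    have h2 : z ^ (((j + a).val : ℕ) : ℤ) = z ^ (((j.val : ℕ) : ℤ) + ((a.val : ℕ) : ℤ)) := by
      apply zpow_class hz
      push_cast
      rw [ZMod.natCast_zmod_val, ZMod.natCast_zmod_val]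
    rw [h2, zpow_add₀ hz0, zpow_neg]
    have h3 : z ^ ((a.val : ℕ) : ℤ) ≠ 0 := zpow_ne_zero _ hz0
    field_simp
  rw [h1, norm_mul, norm_zpow, norm_root hz, one_zpow, one_mul, RCLike.norm_conj]

/-- bound of the cross terms -/
lemma cross_bound {d : ℕ} [NeZero d] (f : ZMod d → ℂ) (α γ κ μ : ℝ) (hα : 0 ≤ α) (hγ : 0 ≤ γ)
    (hf : ∀ j, ‖f j‖ = κ) (a : ZMod d) {z : ℂ} (hz : z ^ d = 1)
    (hF1 : γ * ‖∑ j : ZMod d, f j * z ^ ((j.val : ℕ) : ℤ)‖ ≤ γ * μ)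
    (hF2 : γ * ‖∑ j : ZMod d, f j * ((starRingEnd ℂ) z) ^ ((j.val : ℕ) : ℤ)‖ ≤ γ * μ) :
    ‖(α : ℂ) * (starRingEnd ℂ) (f a)
          + (γ : ℂ) * ∑ j : ZMod d, (starRingEnd ℂ) (f (j + a)) * z ^ ((j.val : ℕ) : ℤ)
          + (α : ℂ) * (f (-a) * z ^ (((-a).val : ℕ) : ℤ))
          + (α : ℂ) * γ * z ^ (((-a).val : ℕ) : ℤ)
          + (γ : ℂ) * ∑ j : ZMod d, f j * z ^ ((j.val : ℕ) : ℤ)
          + (γ : ℂ) * α‖ ≤ 2 * α * κ + 2 * γ * μ + 2 * α * γ := by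
  have hz1 := norm_root hz
  have e1 : ‖(α : ℂ) * (starRingEnd ℂ) (f a)‖ = α * κ := by
    rw [norm_mul, Complex.norm_real, Real.norm_of_nonneg hα, RCLike.norm_conj, hf]
  have e2 : ‖(γ : ℂ) * ∑ j : ZMod d, (starRingEnd ℂ) (f (j + a)) * z ^ ((j.val : ℕ) : ℤ)‖ ≤ γ * μ := by
    rw [norm_mul, Complex.norm_real, Real.norm_of_nonneg hγ, fourier_shift f a hz]
    exact hF2
  have e3 : ‖(α : ℂ) * (f (-a) * z ^ (((-a).val : ℕ) : ℤ))‖ = α * κ := by
    rw [norm_mul, norm_mul, Complex.norm_real, Real.norm_of_nonneg hα, hf, norm_zpow, hz1, one_zpow,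
      mul_one]
  have e4 : ‖(α : ℂ) * γ * z ^ (((-a).val : ℕ) : ℤ)‖ = α * γ := by
    rw [norm_mul, norm_mul, Complex.norm_real, Complex.norm_real, Real.norm_of_nonneg hα,
      Real.norm_of_nonneg hγ, norm_zpow, hz1, one_zpow, mul_one]
  have e5 : ‖(γ : ℂ) * ∑ j : ZMod d, f j * z ^ ((j.val : ℕ) : ℤ)‖ ≤ γ * μ := by
    rw [norm_mul, Complex.norm_real, Real.norm_of_nonneg hγ]
    exact hF1
  have e6 : ‖(γ : ℂ) * α‖ = γ * α := by
    rw [norm_mul, Complex.norm_real, Complex.norm_real, Real.norm_of_nonneg hα,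
      Real.norm_of_nonneg hγ]
  calc _ ≤ α * κ + γ * μ + α * κ + α * γ + γ * μ + γ * α := by
        refine (norm_add_le _ _).trans (add_le_add ?_ e6.le)
        refine (norm_add_le _ _).trans (add_le_add ?_ e5)
        refine (norm_add_le _ _).trans (add_le_add ?_ e4.le)
        refine (norm_add_le _ _).trans (add_le_add ?_ e3.le)
        exact (norm_add_le _ _).trans (add_le_add e1.le e2)
    _ = _ := by ring

end Pool.Agent.WHApprox
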