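import Mathlib

/-!
Smoothed quadratic exponential sums without logarithm.

`perfect_sum_bound`: if `g` on `ℤ/p` is unimodular with perfect autocorrelation, then for every
`f` and every `|c| < 1` the sum `∑ f g` is bounded by `√p` times the `ℓ²` norm of
`f (x+1) - c f x`, up to an explicit constant.
-/

set_option autoImplicit false

namespace Pool.Agent.WHApprox

open Finset

/-- the telescoping identity behind `perfect_sum_bound` -/
lemma telescope {p : ℕ} (f : ZMod p → ℂ) (c : ℂ) (x : ZMod p) :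
    ∑ v ∈ range p, c ^ v * (f (x - v) - c * f (x - v - 1)) = (1 - c ^ p) * f x := by
  have h : ∀ v ∈ range p, c ^ v * (f (x - v) - c * f (x - v - 1))
      = (fun i : ℕ => c ^ i * f (x - (i : ZMod p))) v
        - (fun i : ℕ => c ^ i * f (x - (i : ZMod p))) (v + 1) := by
    intro v _
    simp only [pow_succ, Nat.cast_add, Nat.cast_one, sub_add_eq_sub_sub]
    ring
  rw [sum_congr rfl h, sum_range_sub']
  simp only [pow_zero, Nat.cast_zero, sub_zero, one_mul, CharP.cast_eq_zero]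
  ring

lemma natCast_injOn_range (p : ℕ) {v w : ℕ} (hv : v < p) (hw : w < p)
    (h : (v : ZMod p) = (w : ZMod p)) : v = w := by
  rw [ZMod.natCast_eq_natCast_iff'] at h
  rwa [Nat.mod_eq_of_lt hv, Nat.mod_eq_of_lt hw] at h

lemma sum_H_sq {p : ℕ} [NeZero p] (g : ZMod p → ℂ) (hg1 : ∀ x, ‖g x‖ = 1)
    (hg2 : ∀ v : ZMod p, v ≠ 0 → ∑ y, g (y + v) * (starRingEnd ℂ) (g y) = 0) (c : ℂ) :
    ∑ y : ZMod p, ‖∑ v ∈ range p, c ^ v * g (y + v + 1)‖ ^ 2
      = (p : ℝ) * ∑ v ∈ range p, (‖c‖ ^ 2) ^ v := by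
  have key : ∀ v ∈ range p, ∀ w ∈ range p,
      ∑ y : ZMod p, g (y + v + 1) * (starRingEnd ℂ) (g (y + w + 1))
        = if v = w then (p : ℂ) else 0 := by
    intro v hv w hw
    have hv' := mem_range.1 hv
    have hw' := mem_range.1 hw
    have e1 : ∑ y : ZMod p, g (y + v + 1) * (starRingEnd ℂ) (g (y + w + 1))
        = ∑ y : ZMod p, g (y + ((v : ZMod p) - w)) * (starRingEnd ℂ) (g y) := by
      rw [← Equiv.sum_comp (Equiv.addRight ((w : ZMod p) + 1))
        (fun y => g (y + ((v : ZMod p) - w)) * (starRingEnd ℂ) (g y))]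
      refine sum_congr rfl fun y _ => ?_
      simp only [Equiv.coe_addRight]
      congr 2
      · ring
      · rw [add_assoc]
    rw [e1]
    split_ifs with h
    · subst h
      simp only [sub_self, add_zero]
      have : ∀ y : ZMod p, g y * (starRingEnd ℂ) (g y) = 1 := by
        intro y
        rw [Complex.mul_conj, Complex.normSq_eq_norm_sq, hg1]
        norm_num
      rw [sum_congr rfl fun y _ => this y]
      simp [ZMod.card]
    · apply hg2
      intro h0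
      exact h (natCast_injOn_range p hv' hw' (sub_eq_zero.1 h0))
  have hc : ((∑ y : ZMod p, ‖∑ v ∈ range p, c ^ v * g (y + v + 1)‖ ^ 2 : ℝ) : ℂ)
      = (((p : ℝ) * ∑ v ∈ range p, (‖c‖ ^ 2) ^ v : ℝ) : ℂ) := by
    push_cast
    have e2 : ∀ y : ZMod p, ((‖∑ v ∈ range p, c ^ v * g (y + v + 1)‖ : ℝ) : ℂ) ^ 2
        = ∑ v ∈ range p, ∑ w ∈ range p, c ^ v * (starRingEnd ℂ) (c ^ w) *
          (g (y + v + 1) * (starRingEnd ℂ) (g (y + w + 1))) := by
      intro y
      rw [← Complex.ofReal_pow, ← Complex.normSq_eq_norm_sq, ← Complex.mul_conj, map_sum, sum_mul_sum]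
      refine sum_congr rfl fun v _ => sum_congr rfl fun w _ => ?_
      rw [map_mul]
      ring
    rw [sum_congr rfl fun y _ => e2 y, sum_comm]
    rw [mul_sum]
    refine sum_congr rfl fun v hv => ?_
    rw [sum_comm]
    have e3 : ∀ w ∈ range p, ∑ y : ZMod p, c ^ v * (starRingEnd ℂ) (c ^ w) *
          (g (y + v + 1) * (starRingEnd ℂ) (g (y + w + 1)))
        = if v = w then c ^ v * (starRingEnd ℂ) (c ^ w) * (p : ℂ) else 0 := by
      intro w hw
      rw [← mul_sum, key v hv w hw]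
      split_ifs <;> simp
    rw [sum_congr rfl e3, sum_ite_eq (range p) v, if_pos hv, Complex.mul_conj,
      Complex.normSq_eq_norm_sq, norm_pow]
    push_cast
    ring
  exact_mod_cast hc

theorem perfect_sum_bound {p : ℕ} [NeZero p] (g : ZMod p → ℂ) (hg1 : ∀ x, ‖g x‖ = 1)
    (hg2 : ∀ v : ZMod p, v ≠ 0 → ∑ y, g (y + v) * (starRingEnd ℂ) (g y) = 0)
    (f : ZMod p → ℂ) (c : ℂ) (hc : ‖c‖ < 1) :
    ‖∑ x, f x * g x‖ ^ 2
      ≤ (p : ℝ) * (1 / ((1 - ‖c‖ ^ 2) * (1 - ‖c‖ ^ p) ^ 2)) * ∑ x, ‖f (x + 1) - c * f x‖ ^ 2 := by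
  have hp : p ≠ 0 := NeZero.ne p
  set T : ZMod p → ℂ := fun x => f (x + 1) - c * f x with hT
  set H : ZMod p → ℂ := fun y => ∑ v ∈ range p, c ^ v * g (y + v + 1) with hH
  have hid : (1 - c ^ p) * ∑ x, f x * g x = ∑ y, T y * H y := by
    calc (1 - c ^ p) * ∑ x, f x * g x = ∑ x, ((1 - c ^ p) * f x) * g x := by
          rw [mul_sum]
          exact sum_congr rfl fun x _ => by ring
      _ = ∑ x, ∑ v ∈ range p, c ^ v * T (x - v - 1) * g x := by
          refine sum_congr rfl fun x _ => ?_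
          rw [← telescope, sum_mul]
          refine sum_congr rfl fun v _ => ?_
          simp only [hT, sub_add_cancel]
      _ = ∑ v ∈ range p, ∑ x, c ^ v * T (x - v - 1) * g x := sum_comm
      _ = ∑ v ∈ range p, ∑ y, c ^ v * T y * g (y + v + 1) := by
          refine sum_congr rfl fun v _ => ?_
          rw [← Equiv.sum_comp (Equiv.addRight ((v : ZMod p) + 1))
            (fun x => c ^ v * T (x - v - 1) * g x)]
          refine sum_congr rfl fun y _ => ?_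
          simp only [Equiv.coe_addRight]
          rw [show y + ((v : ZMod p) + 1) - v - 1 = y by ring,
            show y + ((v : ZMod p) + 1) = y + v + 1 by ring]
      _ = ∑ y, ∑ v ∈ range p, c ^ v * T y * g (y + v + 1) := sum_comm
      _ = ∑ y, T y * H y := by
          refine sum_congr rfl fun y _ => ?_
          rw [hH, mul_sum]
          exact sum_congr rfl fun v _ => by ring
  have hcs : ‖∑ y, T y * H y‖ ^ 2 ≤ (∑ y, ‖T y‖ ^ 2) * ∑ y, ‖H y‖ ^ 2 := by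
    calc ‖∑ y, T y * H y‖ ^ 2 ≤ (∑ y, ‖T y‖ * ‖H y‖) ^ 2 := by
          apply pow_le_pow_left₀ (norm_nonneg _)
          refine (norm_sum_le _ _).trans (le_of_eq ?_)
          exact sum_congr rfl fun y _ => norm_mul _ _
      _ ≤ _ := sum_mul_sq_le_sq_mul_sq _ _ _
  have hHs := sum_H_sq g hg1 hg2 c
  have hc0 : 0 ≤ ‖c‖ := norm_nonneg c
  have hc2 : ‖c‖ ^ 2 < 1 := by nlinarith
  have hcp : ‖c‖ ^ p < 1 := pow_lt_one₀ hc0 hc hp
  have hgeo : ∑ v ∈ range p, (‖c‖ ^ 2) ^ v ≤ 1 / (1 - ‖c‖ ^ 2) := by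
    rw [geom_sum_eq hc2.ne, ← neg_div_neg_eq, neg_sub, neg_sub]
    apply div_le_div_of_nonneg_right _ (by linarith)
    have : 0 ≤ (‖c‖ ^ 2) ^ p := by positivity
    linarith
  have hn : 1 - ‖c‖ ^ p ≤ ‖1 - c ^ p‖ := by
    have := norm_sub_norm_le (1 : ℂ) (c ^ p)
    rwa [norm_one, norm_pow] at this
  have hpos : 0 < 1 - ‖c‖ ^ p := by linarith
  have h1 : (1 - ‖c‖ ^ p) ^ 2 * ‖∑ x, f x * g x‖ ^ 2
      ≤ (∑ y, ‖T y‖ ^ 2) * ((p : ℝ) * (1 / (1 - ‖c‖ ^ 2))) := by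
    calc (1 - ‖c‖ ^ p) ^ 2 * ‖∑ x, f x * g x‖ ^ 2
        ≤ ‖1 - c ^ p‖ ^ 2 * ‖∑ x, f x * g x‖ ^ 2 := by
          apply mul_le_mul_of_nonneg_right _ (by positivity)
          exact pow_le_pow_left₀ hpos.le hn 2
      _ = ‖∑ y, T y * H y‖ ^ 2 := by
          rw [← mul_pow, ← norm_mul, hid]
      _ ≤ (∑ y, ‖T y‖ ^ 2) * ∑ y, ‖H y‖ ^ 2 := hcs
      _ = (∑ y, ‖T y‖ ^ 2) * ((p : ℝ) * ∑ v ∈ range p, (‖c‖ ^ 2) ^ v) := by rw [hH, hHs]
      _ ≤ _ := by
          apply mul_le_mul_of_nonneg_left _ (by positivity)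
          exact mul_le_mul_of_nonneg_left hgeo (by positivity)
  have h2 : 0 < 1 - ‖c‖ ^ 2 := by linarith
  calc ‖∑ x, f x * g x‖ ^ 2
      = ((1 - ‖c‖ ^ p) ^ 2 * ‖∑ x, f x * g x‖ ^ 2) / (1 - ‖c‖ ^ p) ^ 2 := by
        field_simp
    _ ≤ ((∑ y, ‖T y‖ ^ 2) * ((p : ℝ) * (1 / (1 - ‖c‖ ^ 2)))) / (1 - ‖c‖ ^ p) ^ 2 :=
        div_le_div_of_nonneg_right h1 (by positivity)
    _ = _ := by
        field_simp
        rfl

end Pool.Agent.WHApprox
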