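import Pool.Agent.Lib_MP_1c78a5_mp.Overlap

/-!
Normalisation and an explicit window.
-/

set_option autoImplicit false

namespace Pool.Agent.WHApprox

open Finset

/-- one of the two chirps `τ = 1` and `τ^d = -1` has squared norm at least `d` -/
lemma norm_sum {d p M : ℕ} [NeZero d] [Fact p.Prime] (hMp : M < p)
    (hM : 2 * M ≤ 3 * d) {u : ℤ → ℝ} (hu : Window d p M u) {τ : ℂ} (hτ : ‖τ‖ = 1)
    (hτd : τ ^ d = -1) :
    ∑ j : ZMod d, ‖fold d p u 1 j‖ ^ 2 + ∑ j : ZMod d, ‖fold d p u τ j‖ ^ 2 = 2 * d := by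
  have hN : ∀ τ : ℂ, ((∑ j : ZMod d, ‖fold d p u τ j‖ ^ 2 : ℝ) : ℂ)
      = ∑ s ∈ shf d M 0, ∑ x ∈ Ico (0 : ℤ) p,
          (starRingEnd ℂ) (chirp p u τ (x + s)) * chirp p u τ x := by
    intro τ
    have h := ovl_fold hMp hu τ 1 (one_pow d) 0
    simp only [one_zpow, mul_one] at h
    rw [← h]
    unfold ovl
    push_cast
    refine sum_congr rfl fun j _ => ?_
    rw [add_zero, one_zpow, mul_one, mul_comm, Complex.mul_conj, Complex.normSq_eq_norm_sq]
    push_cast
    rfl
  have hd : 0 < d := Nat.pos_of_ne_zero (NeZero.ne d)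
  have hterm : ∀ (σ : ℂ) (_ : ‖σ‖ = 1) (x s : ℤ),
      (starRingEnd ℂ) (chirp p u σ (x + s)) * chirp p u σ x
      = σ ^ (-s) * (((u (x + s) * u x : ℝ) : ℂ) *
        ((starRingEnd ℂ) (ZMod.stdAddChar (((x + s : ℤ) : ZMod p) ^ 3) : ℂ) *
          (ZMod.stdAddChar ((x : ZMod p) ^ 3) : ℂ))) := by
    intro σ hσ x s
    unfold chirp
    rw [← conj_tau hσ x s]
    simp only [map_mul, Complex.conj_ofReal]
    push_cast
    ring
  have hkey : ∀ s ∈ shf d M 0, ∑ x ∈ Ico (0 : ℤ) p,
          (starRingEnd ℂ) (chirp p u 1 (x + s)) * chirp p u 1 x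
        + ∑ x ∈ Ico (0 : ℤ) p, (starRingEnd ℂ) (chirp p u τ (x + s)) * chirp p u τ x
        = if s = 0 then (2 * d : ℂ) else 0 := by
    intro s hs
    rw [mem_shf] at hs
    obtain ⟨k, hk⟩ := (ZMod.intCast_zmod_eq_zero_iff_dvd s d).1 hs.2
    by_cases hs0 : s = 0
    · subst hs0
      rw [if_pos rfl]
      have hsum : ∀ σ : ℂ, ‖σ‖ = 1 → ∑ x ∈ Ico (0 : ℤ) p,
          (starRingEnd ℂ) (chirp p u σ (x + 0)) * chirp p u σ x = d := by
        intro σ hσ
        have h1 : ∀ x : ℤ, (starRingEnd ℂ) (chirp p u σ (x + 0)) * chirp p u σ x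
            = ((u x ^ 2 : ℝ) : ℂ) := by
          intro x
          rw [add_zero, mul_comm ((starRingEnd ℂ) _), Complex.mul_conj, Complex.normSq_eq_norm_sq]
          unfold chirp
          rw [norm_mul, norm_mul, norm_zpow, hσ, one_zpow, mul_one, AddChar.norm_apply, mul_one,
            Complex.norm_real, Real.norm_eq_abs, sq_abs]
        rw [sum_congr rfl fun x _ => h1 x, ← Complex.ofReal_sum, ← sum_class (d := d),
          sum_congr rfl fun j _ => hu.sq j]
        simp [ZMod.card]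
      rw [hsum 1 norm_one, hsum τ hτ]
      ring
    · rw [if_neg hs0]
      have hk1 : k = 1 ∨ k = -1 := by
        have hk0 : k ≠ 0 := by
          rintro rfl
          exact hs0 (by rw [hk, mul_zero])
        have h1 : k < 2 := by
          by_contra hc
          have : (d : ℤ) * 2 ≤ d * k := mul_le_mul_of_nonneg_left (by omega) (by positivity)
          omega
        have h2 : -2 < k := by
          by_contra hc
          have : (d : ℤ) * k ≤ d * (-2) := mul_le_mul_of_nonneg_left (by omega) (by positivity)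
          omega
        omega
      have hτs : τ ^ (-s) = -1 := by
        rcases hk1 with h | h
        · rw [hk, h, mul_one, zpow_neg, zpow_natCast, hτd]
          norm_num
        · rw [hk, h, show -((d : ℤ) * -1) = d by ring, zpow_natCast, hτd]
      simp only [hterm 1 norm_one, hterm τ hτ, ← mul_sum, hτs, one_zpow]
      ring
  have hC : ((∑ j : ZMod d, ‖fold d p u 1 j‖ ^ 2 + ∑ j : ZMod d, ‖fold d p u τ j‖ ^ 2 : ℝ) : ℂ)
      = ((2 * d : ℝ) : ℂ) := by
    rw [Complex.ofReal_add, hN 1, hN τ, ← sum_add_distrib, sum_congr rfl hkey]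
    have h0 : (0 : ℤ) ∈ shf d M 0 := by
      rw [mem_shf]
      refine ⟨⟨?_, ?_⟩, by simp⟩
      · by_contra hc
        have hM0 : M = 0 := by omega
        have := hu.sq 0
        rw [sum_eq_zero (fun x _ => by rw [hu.out x (by omega)]; norm_num)] at this
        exact zero_ne_one this
      · by_contra hc
        have hM0 : M = 0 := by omega
        have := hu.sq 0
        rw [sum_eq_zero (fun x _ => by rw [hu.out x (by omega)]; norm_num)] at this
        exact zero_ne_one this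
    rw [sum_ite_eq' (shf d M 0) 0, if_pos h0]
    push_cast
    rfl
  exact_mod_cast hC

/-- class sums of functions supported in `[0, M)`, `M ≤ 2d` -/
lemma class_two {d p M : ℕ} [NeZero d] {R : Type*} [AddCommMonoid R] (hMp : M ≤ p)
    (hM : M ≤ 2 * d) (F : ℤ → R) (hF : ∀ x : ℤ, (x < 0 ∨ (M : ℤ) ≤ x) → F x = 0) (j : ZMod d) :
    ∑ x ∈ cls d p j, F x = F (j.val : ℤ) + F ((j.val : ℤ) + d) := by
  have hd : 0 < d := Nat.pos_of_ne_zero (NeZero.ne d)
  have hj := ZMod.val_lt j
  have hne : (j.val : ℤ) ≠ (j.val : ℤ) + d := by omega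
  rw [← sum_pair hne]
  have h1 : ∑ x ∈ cls d p j, F x = ∑ x ∈ cls d p j ∪ {(j.val : ℤ), (j.val : ℤ) + d}, F x := by
    apply sum_subset subset_union_left
    intro x hx hx'
    apply hF
    by_contra hc
    apply hx'
    rw [mem_cls]
    rw [mem_union, mem_insert, mem_singleton] at hx
    rcases hx with hx | hx | hx
    · exact mem_cls.1 hx
    · refine ⟨⟨by omega, by omega⟩, ?_⟩
      rw [hx, Int.cast_natCast, ZMod.natCast_zmod_val]
    · refine ⟨⟨by omega, by omega⟩, ?_⟩
      rw [hx]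
      push_cast
      rw [ZMod.natCast_zmod_val, CharP.cast_eq_zero, add_zero]
  have h2 : ∑ x ∈ ({(j.val : ℤ), (j.val : ℤ) + d} : Finset ℤ), F x
      = ∑ x ∈ cls d p j ∪ {(j.val : ℤ), (j.val : ℤ) + d}, F x := by
    apply sum_subset subset_union_right
    intro x hx hx'
    apply hF
    by_contra hc
    apply hx'
    rw [mem_union] at hx
    rcases hx with hx | hx
    · rw [mem_cls] at hx
      rw [mem_insert, mem_singleton]
      have h3 : ((x - (j.val : ℤ) : ℤ) : ZMod d) = 0 := by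
        rw [Int.cast_sub, hx.2, Int.cast_natCast, ZMod.natCast_zmod_val, sub_self]
      rw [ZMod.intCast_zmod_eq_zero_iff_dvd] at h3
      obtain ⟨k, hk⟩ := h3
      have h4 : k < 2 := by
        by_contra hc'
        have : (d : ℤ) * 2 ≤ d * k := mul_le_mul_of_nonneg_left (by omega) (by positivity)
        omega
      have h5 : -1 < k := by
        by_contra hc'
        have : (d : ℤ) * k ≤ d * (-1) := mul_le_mul_of_nonneg_left (by omega) (by positivity)
        omega
      have h6 : k = 0 ∨ k = 1 := by omega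
      rcases h6 with h6 | h6
      · left; rw [h6] at hk; omega
      · right; rw [h6] at hk; omega
    · exact hx
  rw [h1, h2]

/-- the angle of the window -/
noncomputable def ang (r₀ : ℕ) (x : ℤ) : ℝ := Real.pi / 2 * ((max 0 (min x r₀) : ℤ) : ℝ) / r₀

/-- the window -/
noncomputable def win (d r₀ : ℕ) (x : ℤ) : ℝ := Real.sin (ang r₀ x) * Real.cos (ang r₀ (x - d))

lemma ang_nonpos {r₀ : ℕ} {x : ℤ} (h : x ≤ 0) : ang r₀ x = 0 := by
  unfold ang
  rw [max_eq_left (by omega)]
  simp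

lemma ang_ge {r₀ : ℕ} (hr : 0 < r₀) {x : ℤ} (h : (r₀ : ℤ) ≤ x) : ang r₀ x = Real.pi / 2 := by
  unfold ang
  rw [max_eq_right (by omega), min_eq_right h]
  have : (r₀ : ℝ) ≠ 0 := by exact_mod_cast hr.ne'
  push_cast
  field_simp

lemma ang_mid {r₀ : ℕ} {x : ℤ} (h0 : 0 ≤ x) (h : x ≤ r₀) : ang r₀ x = Real.pi / 2 * x / r₀ := by
  unfold ang
  rw [max_eq_right (by omega), min_eq_left h]

lemma win_left {d r₀ : ℕ} {x : ℤ} (h : x ≤ d) : win d r₀ x = Real.sin (ang r₀ x) := by
  unfold win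
  rw [ang_nonpos (r₀ := r₀) (x := x - d) (by omega), Real.cos_zero, mul_one]

lemma win_right {d r₀ : ℕ} (hr : 0 < r₀) {x : ℤ} (h : (r₀ : ℤ) ≤ x + d) :
    win d r₀ (x + d) = Real.cos (ang r₀ x) := by
  unfold win
  rw [ang_ge hr h, Real.sin_pi_div_two, one_mul, show x + (d : ℤ) - d = x by ring]

lemma win_out {d r₀ : ℕ} (hr : 0 < r₀) {x : ℤ} (h : x ≤ 0 ∨ ((d + r₀ : ℕ) : ℤ) ≤ x) :
    win d r₀ x = 0 := by
  rcases h with h | h
  · unfold win
    rw [ang_nonpos h, Real.sin_zero, zero_mul]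
  · unfold win
    rw [ang_ge hr (x := x - d) (by push_cast at h; omega), Real.cos_pi_div_two, mul_zero]

lemma window_win {d p r₀ : ℕ} [NeZero d] (hr : 0 < r₀) (hrd : r₀ ≤ d) (hp : d + r₀ < p) :
    Window d p (d + r₀) (win d r₀) where
  out := fun x hx => win_out hr hx
  sq := by
    intro j
    have hj := ZMod.val_lt j
    rw [class_two (M := d + r₀) hp.le (by omega) (fun x => win d r₀ x ^ 2)
      (fun x hx => by rw [win_out hr (by omega)]; norm_num) j]
    rw [win_left (by omega), win_right hr (by omega)]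
    exact Real.sin_sq_add_cos_sq _

lemma win_energy {d p r₀ : ℕ} [NeZero d] (hr : 0 < r₀) (hrd : r₀ ≤ d) (hp : d + r₀ < p) :
    ∑ x ∈ Ico (0 : ℤ) p, (win d r₀ (x + 1) - win d r₀ x) ^ 2 ≤ Real.pi ^ 2 / (4 * r₀) := by
  rw [← sum_class (d := d)]
  have h1 : ∀ j : ZMod d, ∑ x ∈ cls d p j, (win d r₀ (x + 1) - win d r₀ x) ^ 2
      = (win d r₀ ((j.val : ℤ) + 1) - win d r₀ (j.val : ℤ)) ^ 2
        + (win d r₀ ((j.val : ℤ) + d + 1) - win d r₀ ((j.val : ℤ) + d)) ^ 2 := by
    intro j
    exact class_two (M := d + r₀) hp.le (by omega)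
      (fun x => (win d r₀ (x + 1) - win d r₀ x) ^ 2)
      (fun x hx => by rw [win_out hr (x := x) (by omega), win_out hr (x := x + 1) (by omega)]; norm_num) j
  rw [sum_congr rfl fun j _ => h1 j]
  rw [← sum_Ico_zmod d (fun x => (win d r₀ (x + 1) - win d r₀ x) ^ 2
        + (win d r₀ (x + d + 1) - win d r₀ (x + d)) ^ 2)]
  have h2 : ∀ x ∈ Ico (0 : ℤ) d, (win d r₀ (x + 1) - win d r₀ x) ^ 2
        + (win d r₀ (x + d + 1) - win d r₀ (x + d)) ^ 2
      ≤ if x < r₀ then (Real.pi / (2 * r₀)) ^ 2 else 0 := by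
    intro x hx
    rw [mem_Ico] at hx
    rw [show x + (d : ℤ) + 1 = (x + 1) + d by ring, win_left (by omega), win_left (by omega),
      win_right hr (by omega), win_right hr (by omega)]
    have h3 : (Real.sin (ang r₀ (x + 1)) - Real.sin (ang r₀ x)) ^ 2
        + (Real.cos (ang r₀ (x + 1)) - Real.cos (ang r₀ x)) ^ 2
        = 2 - 2 * Real.cos (ang r₀ (x + 1) - ang r₀ x) := by
      rw [Real.cos_sub]
      nlinarith [Real.sin_sq_add_cos_sq (ang r₀ (x + 1)), Real.sin_sq_add_cos_sq (ang r₀ x)]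
    rw [h3]
    have h4 := Real.one_sub_sq_div_two_le_cos (x := ang r₀ (x + 1) - ang r₀ x)
    have hr' : (r₀ : ℝ) ≠ 0 := by exact_mod_cast hr.ne'
    split_ifs with h
    · have : ang r₀ (x + 1) - ang r₀ x = Real.pi / (2 * r₀) := by
        rw [ang_mid (by omega) (by omega), ang_mid (by omega) (by omega)]
        push_cast
        field_simp
        ring
      rw [this] at h4 ⊢
      linarith
    · have : ang r₀ (x + 1) - ang r₀ x = 0 := by
        rw [ang_ge hr (by omega), ang_ge hr (by omega), sub_self]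
      rw [this] at h4 ⊢
      rw [Real.cos_zero]
      norm_num
  refine (sum_le_sum h2).trans ?_
  rw [← sum_filter, sum_const]
  have h5 : ((Ico (0 : ℤ) d).filter (fun x : ℤ => x < r₀)).card ≤ r₀ := by
    have : (Ico (0 : ℤ) d).filter (fun x : ℤ => x < r₀) ⊆ Ico (0 : ℤ) r₀ := by
      intro x hx
      rw [mem_filter, mem_Ico] at hx
      rw [mem_Ico]
      exact ⟨hx.1.1, hx.2⟩
    refine (card_le_card this).trans ?_
    simp
  rw [nsmul_eq_mul]
  have hr' : (0 : ℝ) < r₀ := by exact_mod_cast hr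
  calc (((Ico (0 : ℤ) d).filter (fun x : ℤ => x < r₀)).card : ℝ) * (Real.pi / (2 * r₀)) ^ 2
      ≤ r₀ * (Real.pi / (2 * r₀)) ^ 2 := by
        apply mul_le_mul_of_nonneg_right _ (by positivity)
        exact_mod_cast h5
    _ = Real.pi ^ 2 / (4 * r₀) := by
        field_simp
        ring

end Pool.Agent.WHApprox
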